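import Mathlib

/-!
# An exponential inequality for sums of bounded functions that are successively orthogonal
-/

set_option autoImplicit false

open MeasureTheory Filter Topology

noncomputable section

namespace Pool.Agent.TH784.KE

variable {X : Type*} {mX : MeasurableSpace X} {μ : Measure X} [IsProbabilityMeasure μ]

theorem exp_le_cosh {x c : ℝ} (hx : |x| ≤ 1) :
    Real.exp (c * x) ≤ Real.cosh c + x * Real.sinh c := by
  have h := abs_le.1 hx
  have hconv := (convexOn_exp).2 (Set.mem_univ c) (Set.mem_univ (-c))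
    (show 0 ≤ (1 + x) / 2 by linarith) (show 0 ≤ (1 - x) / 2 by linarith) (by ring)
  simp only [smul_eq_mul] at hconv
  have e : (1 + x) / 2 * c + (1 - x) / 2 * -c = c * x := by ring
  rw [e] at hconv
  rw [Real.cosh_eq, Real.sinh_eq]
  linarith

/-- `D` is successively orthogonal on `M` along the rank function `rk`. -/
def Orth {ι : Type*} (μ : Measure X) (rk : ι → ℤ) (M : Finset ι) (D : ι → X → ℝ) : Prop :=
  ∀ i ∈ M, ∀ M' ⊆ M, (∀ j ∈ M', rk j < rk i) → ∀ c : ℝ,
    ∫ x, D i x * Real.exp (c * ∑ j ∈ M', D j x) ∂μ = 0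

theorem azuma_int {ι : Type*} [DecidableEq ι] {rk : ι → ℤ} (hrk : Function.Injective rk)
    (M : Finset ι) {D : ι → X → ℝ} (hm : ∀ i ∈ M, Measurable (D i))
    (hb : ∀ i ∈ M, ∀ x, |D i x| ≤ 1) (ho : Orth μ rk M D) (c : ℝ) :
    ∫ x, Real.exp (c * ∑ i ∈ M, D i x) ∂μ ≤ Real.exp (M.card * (c ^ 2 / 2)) := by
  induction M using Finset.induction_on_max_value rk with
  | empty => simp
  | insert a s ha hmax ih =>
    have hs : s ⊆ insert a s := Finset.subset_insert a s
    have ih' := ih (fun i hi => hm i (hs hi)) (fun i hi => hb i (hs hi))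
      (fun i hi M' hM' h => ho i (hs hi) M' (hM'.trans hs) h)
    have hlt : ∀ j ∈ s, rk j < rk a := by
      intro j hj
      refine lt_of_le_of_ne (hmax j hj) fun h => ?_
      rw [hrk h] at hj
      exact ha hj
    have h0 := ho a (Finset.mem_insert_self a s) s hs hlt c
    have hma := hm a (Finset.mem_insert_self a s)
    have hba := hb a (Finset.mem_insert_self a s)
    have hSm : Measurable fun x => ∑ i ∈ s, D i x :=
      Finset.measurable_fun_sum _ fun i hi => hm i (hs hi)
    have hSb : ∀ x, |∑ i ∈ s, D i x| ≤ s.card := by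
      intro x
      refine (Finset.abs_sum_le_sum_abs _ _).trans ?_
      refine (Finset.sum_le_sum fun i hi => hb i (hs hi) x).trans ?_
      simp
    have hEm : Measurable fun x => Real.exp (c * ∑ i ∈ s, D i x) :=
      (hSm.const_mul c).exp
    have hEb : ∀ x, |Real.exp (c * ∑ i ∈ s, D i x)| ≤ Real.exp (|c| * s.card) := by
      intro x
      rw [abs_of_pos (Real.exp_pos _)]
      apply Real.exp_le_exp.2
      refine (le_abs_self _).trans ?_
      rw [abs_mul]
      exact mul_le_mul_of_nonneg_left (hSb x) (abs_nonneg _)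
    have hEi : Integrable (fun x => Real.exp (c * ∑ i ∈ s, D i x)) μ :=
      Integrable.of_bound hEm.aestronglyMeasurable _ (Eventually.of_forall hEb)
    have hDEi : Integrable (fun x => D a x * Real.exp (c * ∑ i ∈ s, D i x)) μ := by
      refine Integrable.of_bound (hma.mul hEm).aestronglyMeasurable (1 * Real.exp (|c| * s.card))
        (Eventually.of_forall fun x => ?_)
      rw [Real.norm_eq_abs, abs_mul]
      exact mul_le_mul (hba x) (hEb x) (abs_nonneg _) zero_le_one
    have hpt : ∀ x, Real.exp (c * ∑ i ∈ insert a s, D i x) ≤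
        Real.cosh c * Real.exp (c * ∑ i ∈ s, D i x) +
          Real.sinh c * (D a x * Real.exp (c * ∑ i ∈ s, D i x)) := by
      intro x
      rw [Finset.sum_insert ha, mul_add, Real.exp_add]
      have h1 := exp_le_cosh (c := c) (hba x)
      have h2 := mul_le_mul_of_nonneg_right h1 (Real.exp_pos (c * ∑ i ∈ s, D i x)).le
      refine h2.trans (le_of_eq ?_)
      ring
    have hle : ∫ x, Real.exp (c * ∑ i ∈ insert a s, D i x) ∂μ ≤
        ∫ x, (Real.cosh c * Real.exp (c * ∑ i ∈ s, D i x) +
          Real.sinh c * (D a x * Real.exp (c * ∑ i ∈ s, D i x))) ∂μ := by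
      refine integral_mono_of_nonneg (Eventually.of_forall fun x => (Real.exp_pos _).le)
        ((hEi.const_mul _).add (hDEi.const_mul _)) (Eventually.of_forall hpt)
    rw [integral_add (hEi.const_mul _) (hDEi.const_mul _), integral_const_mul,
      integral_const_mul, h0, mul_zero, add_zero] at hle
    refine hle.trans ?_
    rw [Finset.card_insert_of_notMem ha]
    push_cast
    have e1 : Real.exp (((s.card : ℝ) + 1) * (c ^ 2 / 2)) =
        Real.exp (c ^ 2 / 2) * Real.exp (s.card * (c ^ 2 / 2)) := by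
      rw [← Real.exp_add]
      congr 1
      ring
    rw [e1]
    exact mul_le_mul (Real.cosh_le_exp_half_sq c) ih'
      (integral_nonneg fun x => (Real.exp_pos _).le) (Real.exp_pos _).le

theorem azuma_one {ι : Type*} [DecidableEq ι] {rk : ι → ℤ} (hrk : Function.Injective rk)
    (M : Finset ι) {D : ι → X → ℝ} (hm : ∀ i ∈ M, Measurable (D i))
    (hb : ∀ i ∈ M, ∀ x, |D i x| ≤ 1) (ho : Orth μ rk M D) {t : ℝ} (ht : 0 ≤ t) {n : ℕ}
    (hn : 0 < n) (hMn : M.card ≤ n) :
    μ.real {x | t ≤ ∑ i ∈ M, D i x} ≤ Real.exp (-(t ^ 2 / (2 * n))) := by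
  have hn' : (0 : ℝ) < n := by exact_mod_cast hn
  set c : ℝ := t / n with hc
  have hc0 : 0 ≤ c := by positivity
  have h1 := azuma_int hrk M hm hb ho c
  have h2 : Real.exp (M.card * (c ^ 2 / 2)) ≤ Real.exp (n * (c ^ 2 / 2)) := by
    apply Real.exp_le_exp.2
    have : (M.card : ℝ) ≤ n := by exact_mod_cast hMn
    exact mul_le_mul_of_nonneg_right this (by positivity)
  have hSm : Measurable fun x => ∑ i ∈ M, D i x :=
    Finset.measurable_fun_sum _ fun i hi => hm i hi
  have hSb : ∀ x, |∑ i ∈ M, D i x| ≤ M.card := by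
    intro x
    refine (Finset.abs_sum_le_sum_abs _ _).trans ?_
    refine (Finset.sum_le_sum fun i hi => hb i hi x).trans ?_
    simp
  have hEi : Integrable (fun x => Real.exp (c * ∑ i ∈ M, D i x)) μ := by
    refine Integrable.of_bound (hSm.const_mul c).exp.aestronglyMeasurable
      (Real.exp (|c| * M.card)) (Eventually.of_forall fun x => ?_)
    rw [Real.norm_eq_abs, abs_of_pos (Real.exp_pos _)]
    apply Real.exp_le_exp.2
    refine (le_abs_self _).trans ?_
    rw [abs_mul]
    exact mul_le_mul_of_nonneg_left (hSb x) (abs_nonneg _)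
  have hmark := mul_meas_ge_le_integral_of_nonneg (μ := μ)
    (f := fun x => Real.exp (c * ∑ i ∈ M, D i x))
    (Eventually.of_forall fun x => (Real.exp_pos _).le) hEi (Real.exp (c * t))
  have hsub : {x | t ≤ ∑ i ∈ M, D i x} ⊆
      {x | Real.exp (c * t) ≤ Real.exp (c * ∑ i ∈ M, D i x)} := by
    intro x hx
    exact Real.exp_le_exp.2 (mul_le_mul_of_nonneg_left hx hc0)
  have h3 : Real.exp (c * t) * μ.real {x | t ≤ ∑ i ∈ M, D i x} ≤
      Real.exp (n * (c ^ 2 / 2)) := by
    refine le_trans ?_ ((hmark.trans h1).trans h2)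
    exact mul_le_mul_of_nonneg_left (measureReal_mono hsub) (Real.exp_pos _).le
  have h4 : Real.exp (-(t ^ 2 / (2 * n))) =
      (Real.exp (c * t))⁻¹ * Real.exp (n * (c ^ 2 / 2)) := by
    rw [← Real.exp_neg, ← Real.exp_add]
    congr 1
    rw [hc]
    field_simp
    ring
  rw [h4, ← mul_le_mul_iff_of_pos_left (Real.exp_pos (c * t)), ← mul_assoc,
    mul_inv_cancel₀ (Real.exp_pos _).ne', one_mul]
  exact h3

omit [IsProbabilityMeasure μ] in
theorem Orth.neg {ι : Type*} {rk : ι → ℤ} {M : Finset ι} {D : ι → X → ℝ}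
    (ho : Orth μ rk M D) : Orth μ rk M (fun i x => -D i x) := by
  intro i hi M' hM' h c
  have h1 := ho i hi M' hM' h (-c)
  have e : (fun x => -D i x * Real.exp (c * ∑ j ∈ M', -D j x)) =
      fun x => -(D i x * Real.exp (-c * ∑ j ∈ M', D j x)) := by
    funext x
    rw [Finset.sum_neg_distrib, neg_mul, mul_neg, neg_mul]
  rw [e, integral_neg, h1, neg_zero]

theorem azuma {ι : Type*} [DecidableEq ι] {rk : ι → ℤ} (hrk : Function.Injective rk)
    (M : Finset ι) {D : ι → X → ℝ} (hm : ∀ i ∈ M, Measurable (D i))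
    (hb : ∀ i ∈ M, ∀ x, |D i x| ≤ 1) (ho : Orth μ rk M D) {t : ℝ} (ht : 0 ≤ t) {n : ℕ}
    (hn : 0 < n) (hMn : M.card ≤ n) :
    μ.real {x | t ≤ |∑ i ∈ M, D i x|} ≤ 2 * Real.exp (-(t ^ 2 / (2 * n))) := by
  have h1 := azuma_one hrk M hm hb ho ht hn hMn
  have h2 := azuma_one hrk M (D := fun i x => -D i x) (fun i hi => (hm i hi).neg)
    (fun i hi x => by rw [abs_neg]; exact hb i hi x) ho.neg ht hn hMn
  have hsub : {x | t ≤ |∑ i ∈ M, D i x|} ⊆
      {x | t ≤ ∑ i ∈ M, D i x} ∪ {x | t ≤ ∑ i ∈ M, -D i x} := by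
    intro x hx
    rcases le_abs.1 (show t ≤ |∑ i ∈ M, D i x| from hx) with h | h
    · exact Or.inl h
    · right
      show t ≤ ∑ i ∈ M, -D i x
      rw [Finset.sum_neg_distrib]
      exact h
  refine (measureReal_mono hsub).trans ((measureReal_union_le _ _).trans ?_)
  linarith

end Pool.Agent.TH784.KE
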