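import Pool.Agent.TH784.KE.Line
import Pool.Agent.TH784.AA.AE
import Pool.Agent.W761.Box.Main

/-!
# Box averages of functions with vanishing expectation on the base
-/

set_option autoImplicit false
set_option linter.unusedSectionVars false

open MeasureTheory Filter Topology

noncomputable section

namespace Pool.Agent.TH784.KE

open Pool.Agent.W761.Box (bx bx_add bx_mul bx_sum bx_mono bx_abs bx_const_le bx_nonneg good1
  Good1 int_lim_le')
open Pool.Agent.TH784.AA (bxs mem_bxs vol vol_pos vol_nonneg card_bxs sum_fiber bxs_mono)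

theorem bx_eq {k : ℕ} (N : Fin k → ℕ) (f : (Fin k → ℕ) → ℝ) :
    bx k N f = (vol N)⁻¹ * ∑ n ∈ bxs N, f n := rfl

/-- slicing along the direction `l` -/
theorem bx_slice {k : ℕ} {N : Fin k → ℕ} (hN : ∀ j, 1 ≤ N j) (l : Fin k)
    (φ : (Fin k → ℕ) → ℝ) :
    bx k N φ = bx k N fun n => (N l : ℝ)⁻¹ * ∑ t ∈ Finset.range (N l),
      φ (Function.update n l t) := by
  rw [bx_eq, bx_eq, ← Finset.mul_sum, sum_fiber]
  have h : (N l : ℝ) ≠ 0 := by
    have := hN l
    positivity
  rw [← mul_assoc (N l : ℝ)⁻¹, inv_mul_cancel₀ h, one_mul]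

theorem bx_le_of {k : ℕ} {N : Fin k → ℕ} {φ : (Fin k → ℕ) → ℝ} {C : ℝ} (hC : 0 ≤ C)
    (h : ∀ n ∈ bxs N, φ n ≤ C) : bx k N φ ≤ C := by
  refine le_trans ?_ (bx_const_le (k := k) (N := N) hC)
  rw [bx_eq, bx_eq]
  exact mul_le_mul_of_nonneg_left (Finset.sum_le_sum h) (inv_nonneg.2 (vol_nonneg N))

theorem bx_mono_of {k : ℕ} {N : Fin k → ℕ} {φ ψ : (Fin k → ℕ) → ℝ}
    (h : ∀ n ∈ bxs N, φ n ≤ ψ n) : bx k N φ ≤ bx k N ψ := by
  rw [bx_eq, bx_eq]
  exact mul_le_mul_of_nonneg_left (Finset.sum_le_sum h) (inv_nonneg.2 (vol_nonneg N))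

open Classical in
/-- points of a progression in an interval -/
theorem count_progression {θ R : ℝ} (hθ : θ ≠ 0) (hR : 0 < R) (c : ℝ) (M : ℕ) :
    ∑ t ∈ Finset.range M, (if |c + t * θ| < R then (1 : ℝ) else 0) ≤ 2 * R / |θ| + 1 := by
  rw [← Finset.sum_filter, Finset.sum_const, nsmul_eq_mul, mul_one]
  set T := (Finset.range M).filter fun t : ℕ => |c + t * θ| < R with hT
  have hθ' : 0 < |θ| := abs_pos.2 hθ
  rcases T.eq_empty_or_nonempty with h | h
  · rw [h, Finset.card_empty, Nat.cast_zero]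
    positivity
  · set t₀ := T.min' h with ht₀
    have hmem : t₀ ∈ T := T.min'_mem h
    have h1 : |c + t₀ * θ| < R := (Finset.mem_filter.1 hmem).2
    have hsub : T ⊆ Finset.Ico t₀ (t₀ + ⌈2 * R / |θ|⌉₊) := by
      intro t ht
      rw [Finset.mem_Ico]
      have hle : t₀ ≤ t := T.min'_le t ht
      refine ⟨hle, ?_⟩
      have h2 : |c + t * θ| < R := (Finset.mem_filter.1 ht).2
      have h3 : ((t - t₀ : ℕ) : ℝ) * |θ| < 2 * R := by
        rw [Nat.cast_sub hle]
        have e : ((t : ℝ) - t₀) * |θ| = |(c + t * θ) - (c + t₀ * θ)| := by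
          have h5 : (c + t * θ) - (c + t₀ * θ) = ((t : ℝ) - t₀) * θ := by ring
          rw [h5, abs_mul, abs_of_nonneg (a := (t : ℝ) - t₀)]
          rw [sub_nonneg]
          exact_mod_cast hle
        rw [e]
        calc _ ≤ |c + t * θ| + |c + t₀ * θ| := abs_sub _ _
          _ < 2 * R := by linarith
      have h4 : ((t - t₀ : ℕ) : ℝ) < 2 * R / |θ| := by
        rw [lt_div_iff₀ hθ']
        exact h3
      have h5 : t - t₀ < ⌈2 * R / |θ|⌉₊ := Nat.lt_ceil.2 h4
      omega
    have h6 : (T.card : ℝ) ≤ ⌈2 * R / |θ|⌉₊ := by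
      have := Finset.card_le_card hsub
      rw [Nat.card_Ico] at this
      have h7 : T.card ≤ ⌈2 * R / |θ|⌉₊ := by omega
      exact_mod_cast h7
    have h8 : (⌈2 * R / |θ|⌉₊ : ℝ) < 2 * R / |θ| + 1 := Nat.ceil_lt_add_one (by positivity)
    linarith

section pos

variable {A : Type*} [AddCommGroup A] {J : Type*} {k : ℕ}

/-- positions -/
def pos (c : J → A) (a : J → Fin k → A) (n : Fin k → ℕ) (v : J) : A :=
  c v + ∑ l, n l • a v l

theorem pos_update (c : J → A) (a : J → Fin k → A) (n : Fin k → ℕ) (l : Fin k) (t : ℕ) (v : J) :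
    pos c a (Function.update n l t) v = pos c a (Function.update n l 0) v + t • a v l := by
  classical
  unfold pos
  rw [add_assoc]
  congr 1
  rw [← Finset.add_sum_erase Finset.univ _ (Finset.mem_univ l),
    ← Finset.add_sum_erase Finset.univ
      (fun j => Function.update n l 0 j • a v j) (Finset.mem_univ l),
    Function.update_self, Function.update_self, zero_smul, zero_add, add_comm]
  congr 1
  refine Finset.sum_congr rfl fun j hj => ?_
  rw [Function.update_of_ne (Finset.ne_of_mem_erase hj),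
    Function.update_of_ne (Finset.ne_of_mem_erase hj)]

theorem pos_update_zero (c : J → A) (a : J → Fin k → A) (n : Fin k → ℕ) {l : Fin k} (t : ℕ)
    {v : J} (h : a v l = 0) : pos c a (Function.update n l t) v = pos c a n v := by
  have h1 := pos_update c a n l (n l) v
  rw [Function.update_eq_self] at h1
  rw [pos_update, h1, h, smul_zero, smul_zero]

end pos

open Classical in
/-- few coincidences of the levels -/
theorem count_close {J : Type*} {k : ℕ} {R : ℝ} (hR : 0 < R) (lam : J → ℝ) (θ : J → Fin k → ℝ)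
    {v w : J} {l : Fin k} (hl : θ v l ≠ θ w l) {N : Fin k → ℕ} (hN : ∀ j, 1 ≤ N j) :
    bx k N (fun n => if |pos lam θ n v - pos lam θ n w| < R then (1 : ℝ) else 0) ≤
      (2 * R / |θ v l - θ w l| + 1) / N l := by
  rw [bx_slice hN l]
  have hpos : (0 : ℝ) < N l := by
    have := hN l
    positivity
  refine bx_le_of (by positivity) fun n _ => ?_
  rw [div_eq_inv_mul]
  refine mul_le_mul_of_nonneg_left ?_ (by positivity)
  have h1 := count_progression (sub_ne_zero.2 hl) hR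
    (pos lam θ (Function.update n l 0) v - pos lam θ (Function.update n l 0) w) (N l)
  refine le_trans (le_of_eq ?_) h1
  refine Finset.sum_congr rfl fun t _ => ?_
  have e : pos lam θ (Function.update n l t) v - pos lam θ (Function.update n l t) w =
      pos lam θ (Function.update n l 0) v - pos lam θ (Function.update n l 0) w +
        t * (θ v l - θ w l) := by
    rw [pos_update, pos_update lam θ n l t w, nsmul_eq_mul, nsmul_eq_mul]
    ring
  rw [e]


variable {X : Type*} {mA mY mX : MeasurableSpace X} {μ : Measure X} [IsProbabilityMeasure μ]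
variable {G : Type*} [Group G]
variable {Φ : G →* Equiv.Perm X} {ℓ : G → ℝ}
variable {J : Type*} [DecidableEq J]

open Classical in
/-- the pointwise decomposition -/
theorem pointwise {V : Finset J} (hV : V.Nonempty) {R : ℝ} (hR : 0 < R) {F H : J → X → ℝ}
    {W : X → ℝ} (hF : ∀ w ∈ V, ∀ x, |F w x| ≤ 1) (hW : ∀ x, |W x| ≤ 1) (p : J → G) (x : X) :
    |(∏ v ∈ V, F v (Φ (p v) x)) * W x - ∑ v ∈ V, DD V Φ ℓ R F H W p v x| ≤
      ∑ v ∈ V, |H v (Φ (p v) x)| +
        ∑ v ∈ V, ∑ w ∈ V.erase v, (if |ℓ (p v) - ℓ (p w)| < R then (1 : ℝ) else 0) := by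
  obtain ⟨v₀, hv₀, hmax⟩ := V.exists_max_image (fun v => ℓ (p v)) hV
  have hG0 : 0 ≤ ∑ v ∈ V, |H v (Φ (p v) x)| := Finset.sum_nonneg fun _ _ => abs_nonneg _
  have hI0 : 0 ≤ ∑ v ∈ V, ∑ w ∈ V.erase v,
      (if |ℓ (p v) - ℓ (p w)| < R then (1 : ℝ) else 0) :=
    Finset.sum_nonneg fun _ _ => Finset.sum_nonneg fun _ _ => by split_ifs <;> norm_num
  have hno : ∀ v ∈ V, v ≠ v₀ → ¬ top V ℓ R p v := by
    intro v hv hne ht
    have h1 := ht v₀ hv₀ (Ne.symm hne)
    have h2 := hmax v hv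
    linarith
  have hsum : ∑ v ∈ V, DD V Φ ℓ R F H W p v x = DD V Φ ℓ R F H W p v₀ x := by
    refine Finset.sum_eq_single_of_mem v₀ hv₀ fun v hv hne => ?_
    unfold DD
    rw [if_neg (hno v hv hne)]
  rw [hsum]
  by_cases htop : top V ℓ R p v₀
  · have e : (∏ v ∈ V, F v (Φ (p v) x)) * W x - DD V Φ ℓ R F H W p v₀ x =
        H v₀ (Φ (p v₀) x) * ((∏ w ∈ V.erase v₀, F w (Φ (p w) x)) * W x) := by
      unfold DD
      rw [if_pos htop, ← Finset.mul_prod_erase V _ hv₀]
      ring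
    rw [e, abs_mul, abs_mul]
    have h2 := prod_abs_le (Φ := Φ) (V := V.erase v₀) (F := F)
      (fun w hw => hF w (Finset.mem_of_mem_erase hw)) p x
    have h4 : |∏ w ∈ V.erase v₀, F w (Φ (p w) x)| * |W x| ≤ 1 := by
      calc _ ≤ (1 : ℝ) * 1 := mul_le_mul h2 (hW x) (abs_nonneg _) zero_le_one
        _ = 1 := one_mul 1
    have h5 : |H v₀ (Φ (p v₀) x)| ≤ ∑ v ∈ V, |H v (Φ (p v) x)| :=
      Finset.single_le_sum (f := fun v => |H v (Φ (p v) x)|) (fun _ _ => abs_nonneg _) hv₀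
    calc _ ≤ |H v₀ (Φ (p v₀) x)| * 1 := mul_le_mul_of_nonneg_left h4 (abs_nonneg _)
      _ ≤ _ := by rw [mul_one]; linarith
  · have e : DD V Φ ℓ R F H W p v₀ x = 0 := by
      unfold DD
      rw [if_neg htop]
    rw [e, sub_zero, abs_mul]
    have h2 := prod_abs_le (Φ := Φ) (V := V) (F := F) hF p x
    have h4 : |∏ w ∈ V, F w (Φ (p w) x)| * |W x| ≤ 1 := by
      calc _ ≤ (1 : ℝ) * 1 := mul_le_mul h2 (hW x) (abs_nonneg _) zero_le_one
        _ = 1 := one_mul 1
    unfold top at htop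
    push Not at htop
    obtain ⟨w, hw, hne, hlt⟩ := htop
    have h5 : |ℓ (p v₀) - ℓ (p w)| < R := by
      rw [abs_lt]
      have := hmax w hw
      constructor <;> linarith
    have h6 : (1 : ℝ) ≤ ∑ v ∈ V, ∑ w ∈ V.erase v,
        (if |ℓ (p v) - ℓ (p w)| < R then (1 : ℝ) else 0) := by
      have h7 : (1 : ℝ) ≤ ∑ w ∈ V.erase v₀,
          (if |ℓ (p v₀) - ℓ (p w)| < R then (1 : ℝ) else 0) := by
        have h8 := Finset.single_le_sum (s := V.erase v₀)
          (f := fun w => if |ℓ (p v₀) - ℓ (p w)| < R then (1 : ℝ) else 0)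
          (fun _ _ => by split_ifs <;> norm_num) (Finset.mem_erase.2 ⟨hne, hw⟩)
        simp only [h5, if_true] at h8
        exact h8
      refine h7.trans (Finset.single_le_sum (s := V)
          (f := fun v => ∑ w ∈ V.erase v,
            (if |ℓ (p v) - ℓ (p w)| < R then (1 : ℝ) else 0))
          (fun _ _ => Finset.sum_nonneg fun _ _ => by split_ifs <;> norm_num) hv₀)
    linarith

/-- sums along the lines of a cube -/
theorem lines_ae {k : ℕ} (hFl : Flow μ Φ) (hA : Filt mX mA Φ ℓ) (hY : Base mY mA Φ)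
    {V : Finset J} {q : (Fin k → ℕ) → J → G} {lam : J → ℝ} {θ : J → Fin k → ℝ}
    (hq : ∀ n v, ℓ (q n v) = pos lam θ n v) (l : Fin k)
    (hβ0 : ∀ v ∈ V, θ v l ≠ 0) {F H : J → X → ℝ} {W : (Fin k → ℕ) → X → ℝ} {r s : G} {R : ℝ}
    (hsr : ℓ s ≤ ℓ r) (hR : ℓ r - ℓ s ≤ R) (hR0 : 0 ≤ R)
    (hF : ∀ w ∈ V, Measurable[cm mA Φ r] (F w) ∧ ∀ x, |F w x| ≤ 1)
    (hH : ∀ v ∈ V, CE μ (cm mA Φ s) (F v) (H v))
    (hW : ∀ n, Measurable[mY] (W n) ∧ ∀ x, |W n x| ≤ 1)
    {L : ℕ} (hL : 0 < L) (hβ : ∀ v ∈ V, R ≤ L * |θ v l|) {η : ℝ} (hη : 0 < η) :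
    ∀ᵐ x ∂μ, ∀ᶠ M : ℕ in atTop, ∀ n ∈ bxs (fun _ : Fin k => M),
      |∑ t ∈ Finset.range M, ∑ v ∈ V, DD V Φ ℓ R F H (W (Function.update n l t))
        (q (Function.update n l t)) v x| ≤ η * M := by
  set η' : ℝ := η / (V.card + 1) with hη'
  have hη'0 : 0 < η' := by positivity
  set κ : ℝ := (η' / (2 * L)) ^ 2 / 2 with hκ
  have hL' : (0 : ℝ) < L := by exact_mod_cast hL
  have hκ0 : 0 < κ := by positivity
  let bad : ℕ → Set X := fun M => ⋃ n ∈ bxs (fun _ : Fin k => M), ⋃ v ∈ V,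
    {x | η' * M ≤ |∑ t ∈ Finset.range M, DD V Φ ℓ R F H (W (Function.update n l t))
      (q (Function.update n l t)) v x|}
  have hbad : ∀ M : ℕ, 0 < M → μ.real (bad M) ≤
      ((M : ℝ) ^ k * Real.exp (-κ) ^ M) * (V.card * (L * 2)) := by
    intro M hM
    have hM' : (0 : ℝ) < M := by exact_mod_cast hM
    refine (measureReal_biUnion_finset_le _ _).trans ?_
    have h1 : ∀ n ∈ bxs (fun _ : Fin k => M), μ.real (⋃ v ∈ V,
        {x | η' * M ≤ |∑ t ∈ Finset.range M, DD V Φ ℓ R F H (W (Function.update n l t))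
          (q (Function.update n l t)) v x|}) ≤
        V.card * (L * (2 * Real.exp (-κ) ^ M)) := by
      intro n _
      refine (measureReal_biUnion_finset_le _ _).trans ?_
      rw [← nsmul_eq_mul, ← Finset.sum_const]
      refine Finset.sum_le_sum fun v hv => ?_
      have hp : ∀ m : ℕ, ℓ (q (Function.update n l m) v) =
          pos lam θ (Function.update n l 0) v + m * θ v l := by
        intro m
        rw [hq, pos_update, nsmul_eq_mul]
      have h2 := line_bound hFl hA hY hv (p := fun m => q (Function.update n l m)) hp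
        (W := fun t => W (Function.update n l t)) hsr hR hR0 hF (hH v hv)
        (fun t => hW _) hL (hβ v hv) (hβ0 v hv) hM (t := η' * M) (by positivity)
      refine h2.trans (le_of_eq ?_)
      congr 2
      rw [← Real.exp_nat_mul]
      congr 1
      rw [hκ]
      field_simp
    refine (Finset.sum_le_sum h1).trans (le_of_eq ?_)
    rw [Finset.sum_const, nsmul_eq_mul, card_bxs]
    unfold vol
    rw [Finset.prod_const, Finset.card_univ, Fintype.card_fin]
    ring
  have hsummable : Summable fun M : ℕ => ((M : ℝ) ^ k * Real.exp (-κ) ^ M) *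
      (V.card * (L * 2)) := by
    refine Summable.mul_right _ ?_
    refine summable_pow_mul_geometric_of_norm_lt_one k ?_
    rw [Real.norm_eq_abs, abs_of_pos (Real.exp_pos _), Real.exp_lt_one_iff]
    linarith
  have hfin : ∑' M, μ (bad (M + 1)) ≠ ⊤ := by
    have h3 : ∀ M, μ (bad (M + 1)) ≤ ENNReal.ofReal ((((M + 1 : ℕ) : ℝ) ^ k *
        Real.exp (-κ) ^ (M + 1)) * (V.card * (L * 2))) := by
      intro M
      have h4 := hbad (M + 1) M.succ_pos
      rw [measureReal_def] at h4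
      rw [← ENNReal.ofReal_toReal (measure_ne_top μ (bad (M + 1)))]
      exact ENNReal.ofReal_le_ofReal h4
    refine ne_top_of_le_ne_top ?_ (ENNReal.tsum_le_tsum h3)
    exact ((summable_nat_add_iff 1).2 hsummable).tsum_ofReal_ne_top
  filter_upwards [ae_eventually_notMem hfin] with x hx
  obtain ⟨M₀, hM₀⟩ := eventually_atTop.1 hx
  refine eventually_atTop.2 ⟨M₀ + 1, fun M' hM' => ?_⟩
  obtain ⟨M, rfl⟩ : ∃ M, M' = M + 1 := ⟨M' - 1, by omega⟩
  have hM := hM₀ M (by omega)
  intro n hn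
  by_contra hcon
  rw [not_le] at hcon
  apply hM
  have h5 : ∃ v ∈ V, η' * ((M + 1 : ℕ) : ℝ) ≤ |∑ t ∈ Finset.range (M + 1),
      DD V Φ ℓ R F H (W (Function.update n l t)) (q (Function.update n l t)) v x| := by
    by_contra hcon2
    push Not at hcon2
    rw [Finset.sum_comm] at hcon
    have h6 := Finset.abs_sum_le_sum_abs (fun v => ∑ t ∈ Finset.range (M + 1),
      DD V Φ ℓ R F H (W (Function.update n l t)) (q (Function.update n l t)) v x) V
    have h7 : ∑ v ∈ V, |∑ t ∈ Finset.range (M + 1),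
        DD V Φ ℓ R F H (W (Function.update n l t)) (q (Function.update n l t)) v x| ≤
        V.card * (η' * ((M + 1 : ℕ) : ℝ)) := by
      rw [← nsmul_eq_mul, ← Finset.sum_const]
      exact Finset.sum_le_sum fun v hv => (hcon2 v hv).le
    have h8 : (V.card : ℝ) * (η' * ((M + 1 : ℕ) : ℝ)) ≤ η * ((M + 1 : ℕ) : ℝ) := by
      rw [← mul_assoc]
      refine mul_le_mul_of_nonneg_right ?_ (by positivity)
      rw [hη', mul_div_assoc', div_le_iff₀ (by positivity)]
      nlinarith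
    linarith
  obtain ⟨v, hv, hle⟩ := h5
  exact Set.mem_biUnion hn (Set.mem_biUnion hv hle)

end Pool.Agent.TH784.KE
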