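import Pool.Agent.TH784.KE.Line

/-!
# Conditional expectations on the past and on the future
-/

set_option autoImplicit false
set_option linter.unusedSectionVars false

open MeasureTheory Filter Topology
open scoped InnerProductSpace ENNReal

noncomputable section

namespace Pool.Agent.TH784.KE

section hilbert

variable {H : Type*} [NormedAddCommGroup H] [InnerProductSpace ℝ H] [CompleteSpace H]

theorem proj_tendsto_zero (K : ℕ → Submodule ℝ H) [∀ n, (K n).HasOrthogonalProjection]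
    (hK : Antitone K) (x : H) (hx : ∀ y : H, (∀ n, y ∈ K n) → ⟪y, x⟫_ℝ = 0) :
    Tendsto (fun n => (K n).starProjection x) atTop (𝓝 0) := by
  have hU : Monotone fun n => (K n)ᗮ := fun i j hij => Submodule.orthogonal_le (hK hij)
  have h1 := Submodule.starProjection_tendsto_closure_iSup (fun n => (K n)ᗮ) hU x
  have hmem : x ∈ (⨆ n, (K n)ᗮ).topologicalClosure := by
    rw [← Submodule.orthogonal_orthogonal_eq_closure, Submodule.mem_orthogonal]
    intro y hy
    apply hx
    intro n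
    rw [← Submodule.iInf_orthogonal] at hy
    have := (Submodule.mem_iInf _).1 hy n
    rwa [Submodule.orthogonal_orthogonal] at this
  rw [(Submodule.starProjection_eq_self_iff).2 hmem] at h1
  have h2 : ∀ n, (K n).starProjection x = x - (K n)ᗮ.starProjection x := by
    intro n
    rw [Submodule.starProjection_orthogonal]
    simp
  simp only [h2]
  simpa using (tendsto_const_nhds (x := x)).sub h1

end hilbert

variable {X : Type*} {m mA mY mX : MeasurableSpace X} {μ : Measure X} [IsProbabilityMeasure μ]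
variable {G : Type*} [Group G]
variable {Φ : G →* Equiv.Perm X} {ℓ : G → ℝ}

/-- existence of bounded versions of conditional expectations -/
theorem exists_CE (hm : m ≤ mX) {f : X → ℝ} (hf : Measurable f) (hb : ∀ x, |f x| ≤ 1) :
    ∃ g : X → ℝ, CE μ m f g ∧ g =ᵐ[μ] μ[f | m] := by
  classical
  set g₀ : X → ℝ := μ[f | m] with hg₀
  have hg₀m : Measurable[m] g₀ := (stronglyMeasurable_condExp (μ := μ) (m := m) (f := f)).measurable
  have hg₀b : ∀ᵐ x ∂μ, |g₀ x| ≤ 1 := by
    exact ae_bdd_abs_condExp_of_ae_bdd_abs (m := m) (μ := μ) (R := (1 : ℝ)) (f := f)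
      (Eventually.of_forall hb)
  set g : X → ℝ := fun x => max (-1) (min 1 (g₀ x)) with hg
  have hgm : Measurable[m] g := measurable_const.max (measurable_const.min hg₀m)
  have hge : g =ᵐ[μ] g₀ := by
    filter_upwards [hg₀b] with x hx
    have h := abs_le.1 hx
    show max (-1) (min 1 (g₀ x)) = g₀ x
    rw [min_eq_right h.2, max_eq_right h.1]
  have hfi : Integrable f μ := Integrable.of_bound hf.aestronglyMeasurable 1
    (Eventually.of_forall hb)
  refine ⟨g, ⟨hgm, fun x => ?_, fun h hh hC => ?_⟩, hge⟩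
  · show |max (-1) (min 1 (g₀ x))| ≤ 1
    exact abs_le.2 ⟨le_max_left _ _, max_le (by norm_num) (min_le_left _ _)⟩
  · obtain ⟨C, hC⟩ := hC
    have hhm : Measurable h := hh.mono hm le_rfl
    have h1 : μ[h * f | m] =ᵐ[μ] h * μ[f | m] :=
      condExp_stronglyMeasurable_mul_of_bound hm hh.stronglyMeasurable hfi C
        (Eventually.of_forall hC)
    have h2 : ∫ x, (h * f) x ∂μ = ∫ x, h x * g₀ x ∂μ := by
      rw [← integral_condExp hm]
      exact integral_congr_ae h1
    have hgi : Integrable g₀ μ := integrable_condExp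
    have hi1 : Integrable (fun x => h x * f x) μ := hfi.bdd_mul hhm.aestronglyMeasurable
      (Eventually.of_forall hC)
    have hi2 : Integrable (fun x => h x * g₀ x) μ := hgi.bdd_mul hhm.aestronglyMeasurable
      (Eventually.of_forall hC)
    have h3 : ∫ x, (f x - g x) * h x ∂μ = ∫ x, (h x * f x - h x * g₀ x) ∂μ := by
      apply integral_congr_ae
      filter_upwards [hge] with x hx
      rw [hx]
      ring
    rw [h3, integral_sub hi1 hi2]
    have h4 : ∫ x, h x * f x ∂μ = ∫ x, h x * g₀ x ∂μ := h2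
    rw [h4, sub_self]

/-- vanishing integrals over the sets of `m` -/
def Van (μ : Measure X) (m : MeasurableSpace X) (f : X → ℝ) : Prop :=
  ∀ B : Set X, MeasurableSet[m] B → ∫ x in B, f x ∂μ = 0

theorem van_CE (hm : m ≤ mX) (hYm : mY ≤ m) {f g : X → ℝ} (hf : Measurable f)
    (hb : ∀ x, |f x| ≤ 1) (hg : CE μ m f g) (hV : Van μ mY f) : Van μ mY g := by
  classical
  intro B hB
  have hgm : Measurable g := hg.1.mono hm le_rfl
  have hBm : MeasurableSet[m] B := hYm _ hB
  have hBX : MeasurableSet B := hm _ hBm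
  have hfi : Integrable f μ := Integrable.of_bound hf.aestronglyMeasurable 1
    (Eventually.of_forall hb)
  have hgi : Integrable g μ := Integrable.of_bound hgm.aestronglyMeasurable 1
    (Eventually.of_forall hg.2.1)
  have h1 := hg.2.2 (B.indicator fun _ => 1) (measurable_const.indicator hBm) ⟨1, fun x => by
    by_cases hx : x ∈ B <;> simp [hx]⟩
  have h2 : (fun x => (f x - g x) * B.indicator (fun _ => (1 : ℝ)) x) =
      B.indicator fun x => f x - g x := by
    funext x
    by_cases hx : x ∈ B <;> simp [hx]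
  rw [h2, integral_indicator hBX, integral_sub hfi.integrableOn hgi.integrableOn, hV B hB] at h1
  linarith

theorem int_abs_le_norm {f : X → ℝ} (h : Lp ℝ 2 μ) (hf : f =ᵐ[μ] h) :
    ∫ x, |f x| ∂μ ≤ ‖h‖ := by
  have h1 : ∫ x, |f x| ∂μ = ∫ x, ‖h x‖ ∂μ := by
    apply integral_congr_ae
    filter_upwards [hf] with x hx
    rw [hx, Real.norm_eq_abs]
  rw [h1, integral_norm_eq_lintegral_enorm (Lp.aestronglyMeasurable h), Lp.norm_def]
  refine ENNReal.toReal_mono (Lp.eLpNorm_ne_top h) ?_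
  rw [← eLpNorm_one_eq_lintegral_enorm]
  exact eLpNorm_le_eLpNorm_of_exponent_le (by norm_num) (Lp.aestronglyMeasurable h)

/-- functions measurable with respect to all members of a decreasing sequence -/
theorem tail_version (σ : ℕ → MeasurableSpace X) (hσ : Antitone σ) (hσX : ∀ n, σ n ≤ mX)
    {y : X → ℝ} (hy : ∀ n, AEStronglyMeasurable[σ n] y μ) :
    ∃ z : X → ℝ, Measurable[⨅ n, σ n] z ∧ z =ᵐ[μ] y := by
  choose u hu hyu using hy
  refine ⟨fun x => limsup (fun n => u n x) atTop, ?_, ?_⟩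
  · have h1 : ∀ m, Measurable[σ m] fun x => limsup (fun n => u n x) atTop := by
      intro m
      have e : (fun x => limsup (fun n => u n x) atTop) =
          fun x => limsup (fun n => u (n + m) x) atTop := by
        funext x
        exact (limsup_nat_add (fun n => u n x) m).symm
      rw [e]
      refine Measurable.limsup fun n => ?_
      exact (hu (n + m)).measurable.mono (hσ (Nat.le_add_left m n)) le_rfl
    intro B hB
    rw [MeasurableSpace.measurableSet_iInf]
    intro m
    exact h1 m hB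
  · have h2 : ∀ᵐ x ∂μ, ∀ n, y x = u n x := ae_all_iff.2 hyu
    filter_upwards [h2] with x hx
    have e : (fun n => u n x) = fun _ => y x := funext fun n => (hx n).symm
    rw [e]
    exact limsup_const _

/-- **The conditional expectation on the remote past.** -/
theorem small_past (hFl : Flow μ Φ) (hA : Filt mX mA Φ ℓ) {s₀ : G} (hs₀ : 0 < ℓ s₀)
    (htail : ∀ B, (∀ a, MeasurableSet[cm mA Φ a] B) → ∃ B', MeasurableSet[mY] B' ∧ B =ᵐ[μ] B')
    {f : X → ℝ} (hf : Measurable f) (hb : ∀ x, |f x| ≤ 1) (hV : Van μ mY f) {ε : ℝ}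
    (hε : 0 < ε) (r : G) :
    ∃ s : G, ℓ s ≤ ℓ r ∧ ∫ x, |(μ[f | cm mA Φ s]) x| ∂μ ≤ ε := by
  let σ : ℕ → MeasurableSpace X := fun n => cm mA Φ (s₀ ^ n)⁻¹
  have hσX : ∀ n, σ n ≤ mX := fun n => cm_le hFl hA _
  have hσ : Antitone σ := by
    intro i j hij
    refine cm_mono hA ?_
    rw [hA.inv, hA.inv, hA.pow, hA.pow]
    have : (i : ℝ) ≤ j := by exact_mod_cast hij
    nlinarith
  have hfi : Integrable f μ := Integrable.of_bound hf.aestronglyMeasurable 1
    (Eventually.of_forall hb)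
  have hf2 : MemLp f 2 μ := MemLp.of_bound hf.aestronglyMeasurable 1 (Eventually.of_forall hb)
  -- the tail
  have htail' : ∀ B, MeasurableSet[⨅ n, σ n] B → ∃ B', MeasurableSet[mY] B' ∧ B =ᵐ[μ] B' := by
    intro B hB
    rw [MeasurableSpace.measurableSet_iInf] at hB
    refine htail B fun a => ?_
    obtain ⟨n, hn⟩ : ∃ n : ℕ, -(n * ℓ s₀) ≤ ℓ a := by
      obtain ⟨n, hn⟩ := exists_nat_ge (-(ℓ a) / ℓ s₀)
      refine ⟨n, ?_⟩
      rw [div_le_iff₀ hs₀] at hn
      linarith
    refine cm_mono hA ?_ _ (hB n)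
    rw [hA.inv, hA.pow]
    exact hn
  have hτX : (⨅ n, σ n) ≤ mX := (iInf_le σ 0).trans (hσX 0)
  have hτ0 : (0 : X → ℝ) =ᵐ[μ] μ[f | ⨅ n, σ n] := by
    refine ae_eq_condExp_of_forall_setIntegral_eq hτX hfi (fun B _ _ => ?_) (fun B hB _ => ?_) ?_
    · exact integrableOn_zero
    · obtain ⟨B', hB', hBB'⟩ := htail' B hB
      have h1 : ∫ x in B, f x ∂μ = 0 := by rw [setIntegral_congr_set hBB', hV B' hB']
      rw [h1]
      simp
    · exact stronglyMeasurable_zero.aestronglyMeasurable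
  let K : ℕ → Submodule ℝ (Lp ℝ 2 μ) := fun n => lpMeas ℝ ℝ (σ n) 2 μ
  have hcompl : ∀ n, CompleteSpace (K n) := fun n => by
    have : Fact (σ n ≤ mX) := ⟨hσX n⟩
    show CompleteSpace (lpMeas ℝ ℝ (σ n) 2 μ)
    infer_instance
  have : ∀ n, (K n).HasOrthogonalProjection := fun n => inferInstance
  have hKanti : Antitone K := by
    intro i j hij y hy
    have h1 : AEStronglyMeasurable[σ j] (y : X → ℝ) μ :=
      mem_lpMeas_iff_aestronglyMeasurable.1 hy
    exact mem_lpMeas_iff_aestronglyMeasurable.2 (h1.mono (hσ hij))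
  have hproj := proj_tendsto_zero K hKanti hf2.toLp (by
    intro y hy
    obtain ⟨z, hz, hzy⟩ := tail_version σ hσ hσX (y := (y : X → ℝ))
      (fun n => mem_lpMeas_iff_aestronglyMeasurable.1 (hy n))
    rw [L2.inner_def]
    have h1 : ∀ᵐ x ∂μ, (⟪(y : X → ℝ) x, (hf2.toLp : X → ℝ) x⟫_ℝ : ℝ) = (z * f) x := by
      filter_upwards [hzy, hf2.coeFn_toLp] with x hx1 hx2
      rw [hx2, ← hx1, Pi.mul_apply]
      simp [mul_comm]
    rw [integral_congr_ae h1, ← integral_condExp hτX]
    have hzf : Integrable (z * f) μ := by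
      have hy2 : MemLp (y : X → ℝ) 2 μ := Lp.memLp y
      have hz2 : MemLp z 2 μ := (memLp_congr_ae hzy).2 hy2
      exact hz2.integrable_mul hf2
    have h2 := condExp_mul_of_stronglyMeasurable_left (μ := μ) hz.stronglyMeasurable hzf hfi
    have h3 : μ[z * f | ⨅ n, σ n] =ᵐ[μ] 0 := by
      filter_upwards [h2, hτ0] with x hx1 hx2
      rw [hx1, Pi.mul_apply, ← hx2]
      simp
    rw [integral_congr_ae h3]
    simp)
  have hnorm := hproj.norm
  rw [norm_zero] at hnorm
  have hev := (tendsto_order.1 hnorm).2 ε hε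
  obtain ⟨n, hn1, hn2⟩ := (hev.and (eventually_ge_atTop ⌈-(ℓ r) / ℓ s₀⌉₊)).exists
  refine ⟨(s₀ ^ n)⁻¹, ?_, ?_⟩
  · rw [hA.inv, hA.pow]
    have h1 : -(ℓ r) / ℓ s₀ ≤ n := (Nat.le_ceil _).trans (by exact_mod_cast hn2)
    rw [div_le_iff₀ hs₀] at h1
    linarith
  · refine (int_abs_le_norm ((K n).starProjection hf2.toLp) ?_).trans hn1.le
    have h1 := (hf2.condExpL2_ae_eq_condExp (𝕜 := ℝ) (hσX n)).symm
    exact h1

/-- **Density of the functions measurable with respect to some future.** -/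
theorem dense_future (hFl : Flow μ Φ) (hA : Filt mX mA Φ ℓ) {s₀ : G} (hs₀ : 0 < ℓ s₀)
    (hgen : ∀ B, MeasurableSet B → ∃ B', MeasurableSet[⨆ a, cm mA Φ a] B' ∧ B =ᵐ[μ] B')
    {f : X → ℝ} (hf : Measurable f) (hb : ∀ x, |f x| ≤ 1) {ε : ℝ} (hε : 0 < ε) :
    ∃ r : G, ∫ x, |f x - (μ[f | cm mA Φ r]) x| ∂μ ≤ ε := by
  let ℱ : Filtration ℕ mX :=
    { seq := fun n => cm mA Φ (s₀ ^ n)
      mono' := by
        intro i j hij
        refine cm_mono hA ?_
        rw [hA.pow, hA.pow]
        have : (i : ℝ) ≤ j := by exact_mod_cast hij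
        nlinarith
      le' := fun n => cm_le hFl hA _ }
  have hfi : Integrable f μ := Integrable.of_bound hf.aestronglyMeasurable 1
    (Eventually.of_forall hb)
  have hsup : (⨆ a, cm mA Φ a) ≤ ⨆ n, ℱ n := by
    refine iSup_le fun a => ?_
    obtain ⟨n, hn⟩ : ∃ n : ℕ, ℓ a ≤ n * ℓ s₀ := by
      obtain ⟨n, hn⟩ := exists_nat_ge (ℓ a / ℓ s₀)
      exact ⟨n, (div_le_iff₀ hs₀).1 hn⟩
    refine le_trans (cm_mono hA ?_) (le_iSup (fun n => (ℱ n : MeasurableSpace X)) n)
    rw [hA.pow]
    exact hn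
  have hle : (⨆ n, (ℱ n : MeasurableSpace X)) ≤ mX := iSup_le fun n => ℱ.le n
  have hfe : f =ᵐ[μ] μ[f | ⨆ n, (ℱ n : MeasurableSpace X)] := by
    refine ae_eq_of_forall_setIntegral_eq_of_sigmaFinite' le_rfl
      (fun B _ _ => hfi.integrableOn) (fun B _ _ => integrable_condExp.integrableOn)
      (fun B hB _ => ?_) hf.aestronglyMeasurable
      (integrable_condExp (μ := μ) (m := ⨆ n, (ℱ n : MeasurableSpace X))
        (f := f)).aestronglyMeasurable
    obtain ⟨B', hB', hBB'⟩ := hgen B hB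
    rw [setIntegral_congr_set hBB', setIntegral_congr_set hBB',
      setIntegral_condExp hle hfi (hsup _ hB')]
  have h1 := tendsto_eLpNorm_condExp (μ := μ) (ℱ := ℱ) f
  have h2 := (ENNReal.tendsto_toReal ENNReal.zero_ne_top).comp h1
  rw [ENNReal.toReal_zero] at h2
  obtain ⟨n, hn⟩ := ((tendsto_order.1 h2).2 ε hε).exists
  refine ⟨s₀ ^ n, ?_⟩
  have h3 : ∫ x, |f x - (μ[f | cm mA Φ (s₀ ^ n)]) x| ∂μ =
      (eLpNorm (μ[f | ℱ n] - μ[f | ⨆ n, (ℱ n : MeasurableSpace X)]) 1 μ).toReal := by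
    rw [eLpNorm_one_eq_lintegral_enorm, ← integral_norm_eq_lintegral_enorm
      (integrable_condExp.sub integrable_condExp).aestronglyMeasurable]
    apply integral_congr_ae
    filter_upwards [hfe] with x hx
    rw [Pi.sub_apply, ← hx, Real.norm_eq_abs, abs_sub_comm]
  rw [h3]
  exact hn.le

end Pool.Agent.TH784.KE
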