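import Pool.Agent.TH784.KE.Azuma

/-!
# Kolmogorov filtrations for group actions; sums along a sequence of positions
-/

set_option autoImplicit false
set_option linter.unusedSectionVars false

open MeasureTheory Filter Topology

noncomputable section

namespace Pool.Agent.TH784.KE

/-- the `σ`-algebra of the sets `(Φ a)⁻¹ B`, `B` in `mA` -/
@[reducible] def cm {X G : Type*} [Group G] (mA : MeasurableSpace X) (Φ : G →* Equiv.Perm X)
    (a : G) : MeasurableSpace X :=
  mA.comap (Φ a : X → X)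

/-- measure preserving action -/
def Flow {X G : Type*} [Group G] {mX : MeasurableSpace X} (μ : Measure X)
    (Φ : G →* Equiv.Perm X) : Prop :=
  ∀ a, MeasurePreserving (Φ a) μ μ

/-- `ℓ` is a homomorphism to the reals and `mA` decreases under the maps `Φ a` with `ℓ a ≤ 0` -/
structure Filt {X G : Type*} [Group G] (mX mA : MeasurableSpace X)
    (Φ : G →* Equiv.Perm X) (ℓ : G → ℝ) : Prop where
  hom : ∀ a b, ℓ (a * b) = ℓ a + ℓ b
  le : mA ≤ mX
  mono : ∀ a, ℓ a ≤ 0 → mA.comap (Φ a : X → X) ≤ mA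

/-- `mY` is an invariant sub-`σ`-algebra of `mA` -/
structure Base {X G : Type*} [Group G] (mY mA : MeasurableSpace X) (Φ : G →* Equiv.Perm X) :
    Prop where
  le : mY ≤ mA
  inv : ∀ a, Measurable[mY, mY] (Φ a : X → X)

variable {X : Type*} {mA mY mX : MeasurableSpace X} {μ : Measure X} [IsProbabilityMeasure μ]
variable {G : Type*} [Group G]
variable {Φ : G →* Equiv.Perm X} {ℓ : G → ℝ}

theorem Filt.one (hA : Filt mX mA Φ ℓ) : ℓ 1 = 0 := by
  have := hA.hom 1 1
  rw [mul_one] at this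
  linarith

theorem Filt.inv (hA : Filt mX mA Φ ℓ) (a : G) : ℓ a⁻¹ = -ℓ a := by
  have := hA.hom a a⁻¹
  rw [mul_inv_cancel, hA.one] at this
  linarith

theorem Filt.pow (hA : Filt mX mA Φ ℓ) (a : G) (n : ℕ) : ℓ (a ^ n) = n * ℓ a := by
  induction n with
  | zero => rw [pow_zero, hA.one, Nat.cast_zero, zero_mul]
  | succ n ih =>
    rw [pow_succ, hA.hom, ih]
    push_cast
    ring

theorem cm_mul (a b : G) :
    cm mA Φ (a * b) = (cm mA Φ a).comap (Φ b : X → X) := by
  unfold cm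
  rw [MeasurableSpace.comap_comp, map_mul]
  rfl

theorem cm_mono (hA : Filt mX mA Φ ℓ) {a b : G} (h : ℓ a ≤ ℓ b) :
    cm mA Φ a ≤ cm mA Φ b := by
  have e : a = (a * b⁻¹) * b := by group
  rw [e, cm_mul]
  exact MeasurableSpace.comap_mono (hA.mono _ (by rw [hA.hom, hA.inv]; linarith))

theorem cm_le (hF : Flow μ Φ) (hA : Filt mX mA Φ ℓ) (a : G) : cm mA Φ a ≤ mX :=
  (MeasurableSpace.comap_mono hA.le).trans (hF a).measurable.comap_le

theorem meas_shift {a : G} (b : G) {f : X → ℝ}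
    (hf : Measurable[cm mA Φ a] f) : Measurable[cm mA Φ (a * b)] fun x => f (Φ b x) := by
  rw [cm_mul]
  exact hf.comp (comap_measurable _)

theorem base_le (hY : Base mY mA Φ) (a : G) : mY ≤ cm mA Φ a := by
  intro B hB
  refine ⟨(Φ a⁻¹ : X → X) ⁻¹' B, hY.le _ (hY.inv a⁻¹ hB), ?_⟩
  ext x
  show Φ a⁻¹ (Φ a x) ∈ B ↔ x ∈ B
  rw [← Equiv.Perm.mul_apply, ← map_mul, inv_mul_cancel, map_one, Equiv.Perm.one_apply]

/-- `g` is a bounded version of the conditional expectation of `f` with respect to `m` -/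
def CE (μ : Measure X) (m : MeasurableSpace X) (f g : X → ℝ) : Prop :=
  Measurable[m] g ∧ (∀ x, |g x| ≤ 1) ∧
    ∀ h : X → ℝ, Measurable[m] h → (∃ C : ℝ, ∀ x, |h x| ≤ C) → ∫ x, (f x - g x) * h x ∂μ = 0

theorem orth_shift (hF : Flow μ Φ) (hA : Filt mX mA Φ ℓ) {s : G} {f g : X → ℝ}
    (hf : Measurable f) (hg : CE μ (cm mA Φ s) f g) (p : G) {h : X → ℝ}
    (hh : Measurable[cm mA Φ (s * p)] h) {C : ℝ} (hC : ∀ x, |h x| ≤ C) :
    ∫ x, (f (Φ p x) - g (Φ p x)) * h x ∂μ = 0 := by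
  have h1 : Measurable[cm mA Φ s] fun x => h (Φ p⁻¹ x) := by
    have := meas_shift p⁻¹ hh
    rwa [mul_inv_cancel_right] at this
  have h2 := hg.2.2 _ h1 ⟨C, fun x => hC _⟩
  have hgm : Measurable g := hg.1.mono (cm_le hF hA s) le_rfl
  have hhm : Measurable fun x => h (Φ p⁻¹ x) := h1.mono (cm_le hF hA s) le_rfl
  have h3 : ∫ x, (f x - g x) * h (Φ p⁻¹ x) ∂μ =
      ∫ x, (f (Φ p x) - g (Φ p x)) * h (Φ p⁻¹ (Φ p x)) ∂μ := by
    have h4 := integral_map (μ := μ) (φ := (Φ p : X → X))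
      (f := fun x => (f x - g x) * h (Φ p⁻¹ x)) (hF p).measurable.aemeasurable
      ((hf.sub hgm).mul hhm).aestronglyMeasurable
    rw [(hF p).map_eq] at h4
    exact h4
  rw [h3] at h2
  rw [← h2]
  congr 1
  funext x
  rw [← Equiv.Perm.mul_apply, ← map_mul, inv_mul_cancel, map_one, Equiv.Perm.one_apply]

variable {J : Type*} [DecidableEq J]

/-- `v` is the unique top position, with gap `R` -/
def top (V : Finset J) (ℓ : G → ℝ) (R : ℝ) (p : J → G) (v : J) : Prop :=
  ∀ w ∈ V, w ≠ v → ℓ (p w) + R ≤ ℓ (p v)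

open Classical in
/-- the successively orthogonal functions -/
def DD (V : Finset J) (Φ : G →* Equiv.Perm X) (ℓ : G → ℝ) (R : ℝ) (F H : J → X → ℝ)
    (W : X → ℝ) (p : J → G) (v : J) (x : X) : ℝ :=
  if top V ℓ R p v then
    (F v (Φ (p v) x) - H v (Φ (p v) x)) * ((∏ w ∈ V.erase v, F w (Φ (p w) x)) * W x)
  else 0

theorem prod_abs_le {V : Finset J} {F : J → X → ℝ} (hF : ∀ w ∈ V, ∀ x, |F w x| ≤ 1)
    (p : J → G) (x : X) : |∏ w ∈ V, F w (Φ (p w) x)| ≤ 1 := by
  rw [Finset.abs_prod]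
  exact Finset.prod_le_one (fun _ _ => abs_nonneg _) fun w hw => hF w hw _

theorem DD_abs {V : Finset J} {R : ℝ} {F H : J → X → ℝ} {W : X → ℝ} {v : J} (hv : v ∈ V)
    (hF : ∀ w ∈ V, ∀ x, |F w x| ≤ 1) (hH : ∀ x, |H v x| ≤ 1) (hW : ∀ x, |W x| ≤ 1) (p : J → G)
    (x : X) : |DD V Φ ℓ R F H W p v x| ≤ 2 := by
  unfold DD
  split_ifs with h
  · rw [abs_mul, abs_mul]
    have h1 : |F v (Φ (p v) x) - H v (Φ (p v) x)| ≤ 2 := by
      refine (abs_sub _ _).trans ?_
      linarith [hF v hv (Φ (p v) x), hH (Φ (p v) x)]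
    have h2 := prod_abs_le (Φ := Φ) (V := V.erase v) (F := F)
      (fun w hw => hF w (Finset.mem_of_mem_erase hw)) p x
    have h3 := hW x
    have h4 : |∏ w ∈ V.erase v, F w (Φ (p w) x)| * |W x| ≤ 1 := by
      calc _ ≤ (1 : ℝ) * 1 := mul_le_mul h2 h3 (abs_nonneg _) zero_le_one
        _ = 1 := one_mul 1
    calc _ ≤ (2 : ℝ) * 1 := mul_le_mul h1 h4 (by positivity) (by norm_num)
      _ = 2 := by norm_num
  · simp

/-- `DD` is measurable with respect to the past -/
theorem DD_past (hA : Filt mX mA Φ ℓ) (hY : Base mY mA Φ) {V : Finset J} {v : J}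
    (hv : v ∈ V) {F H : J → X → ℝ} {W : X → ℝ} {r s : G} {R : ℝ} (hsr : ℓ s ≤ ℓ r)
    (hR0 : 0 ≤ R) (hF : ∀ w ∈ V, Measurable[cm mA Φ r] (F w))
    (hH : Measurable[cm mA Φ s] (H v)) (hW : Measurable[mY] W) {p : J → G} {t : G}
    (ht : ℓ r + ℓ (p v) ≤ ℓ t) :
    Measurable[cm mA Φ t] (DD V Φ ℓ R F H W p v) := by
  unfold DD
  by_cases htop : top V ℓ R p v
  · simp only [htop, if_true]
    have h1 : Measurable[cm mA Φ t] fun x => F v (Φ (p v) x) :=
      (meas_shift _ (hF v hv)).mono (cm_mono hA (by rw [hA.hom]; exact ht)) le_rfl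
    have h2 : Measurable[cm mA Φ t] fun x => H v (Φ (p v) x) :=
      (meas_shift _ hH).mono (cm_mono hA (by rw [hA.hom]; linarith)) le_rfl
    have h3 : Measurable[cm mA Φ t] fun x => ∏ w ∈ V.erase v, F w (Φ (p w) x) := by
      refine Finset.measurable_fun_prod _ fun w hw => ?_
      refine (meas_shift _ (hF w (Finset.mem_of_mem_erase hw))).mono
        (cm_mono hA ?_) le_rfl
      have := htop w (Finset.mem_of_mem_erase hw) (Finset.ne_of_mem_erase hw)
      rw [hA.hom]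
      linarith
    have h4 : Measurable[cm mA Φ t] W := hW.mono (base_le hY t) le_rfl
    exact (h1.sub h2).mul (h3.mul h4)
  · simp only [htop, if_false]
    exact measurable_const

theorem orth_line (hFl : Flow μ Φ) (hA : Filt mX mA Φ ℓ) (hY : Base mY mA Φ) {V : Finset J}
    {v : J} (hv : v ∈ V) {p : ℕ → J → G} {lam θ : ℝ} (hp : ∀ m : ℕ, ℓ (p m v) = lam + m * θ)
    {F H : J → X → ℝ} {W : ℕ → X → ℝ} {r s : G} {R : ℝ}
    (hsr : ℓ s ≤ ℓ r) (hR : ℓ r - ℓ s ≤ R) (hR0 : 0 ≤ R)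
    (hF : ∀ w ∈ V, Measurable[cm mA Φ r] (F w) ∧ ∀ x, |F w x| ≤ 1)
    (hH : CE μ (cm mA Φ s) (F v) (H v)) (hW : ∀ m, Measurable[mY] (W m) ∧ ∀ x, |W m x| ≤ 1)
    {L : ℕ} (hβ : R ≤ L * |θ|) (rk : ℕ → ℤ)
    (hrk : ∀ i j : ℕ, rk j < rk i → i % L = j % L → L * |θ| ≤ ((i : ℝ) - j) * θ)
    (ρ : ℕ) (M : Finset ℕ) (hM : ∀ m ∈ M, m % L = ρ) :
    Orth μ rk M fun m x => DD V Φ ℓ R F H (W m) (p m) v x / 2 := by
  classical
  intro i hi M' hM' hlt c
  by_cases htop : top V ℓ R (p i) v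
  swap
  · have e : ∀ x, DD V Φ ℓ R F H (W i) (p i) v x = 0 := by
      intro x
      unfold DD
      rw [if_neg htop]
    simp only [e, zero_div, zero_mul, integral_zero]
  set t : G := s * p i v with ht
  have hpast : ∀ j ∈ M', Measurable[cm mA Φ t]
      (DD V Φ ℓ R F H (W j) (p j) v) := by
    intro j hj
    refine DD_past hA hY hv hsr hR0 (fun w hw => (hF w hw).1) hH.1 (hW j).1 ?_
    have h1 := hrk i j (hlt j hj) ((hM i hi).trans (hM j (hM' hj)).symm)
    rw [ht, hA.hom, hp, hp]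
    have h2 : R ≤ ((i : ℝ) - j) * θ := hβ.trans h1
    rw [sub_mul] at h2
    linarith
  have hexp : Measurable[cm mA Φ t] fun x => Real.exp (c * ∑ j ∈ M',
      DD V Φ ℓ R F H (W j) (p j) v x / 2) := by
    have h1 : Measurable[cm mA Φ t] fun x => ∑ j ∈ M',
        DD V Φ ℓ R F H (W j) (p j) v x / 2 :=
      Finset.measurable_fun_sum _ fun j hj => (hpast j hj).div_const 2
    exact (h1.const_mul c).exp
  have hprod : Measurable[cm mA Φ t] fun x => ∏ w ∈ V.erase v, F w (Φ (p i w) x) := by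
    refine Finset.measurable_fun_prod _ fun w hw => ?_
    refine (meas_shift _ (hF w (Finset.mem_of_mem_erase hw)).1).mono
      (cm_mono hA ?_) le_rfl
    have h9 : ℓ (p i w) + R ≤ ℓ (p i v) :=
      htop w (Finset.mem_of_mem_erase hw) (Finset.ne_of_mem_erase hw)
    rw [ht, hA.hom, hA.hom]
    linarith
  have hWm : Measurable[cm mA Φ t] (W i) := (hW i).1.mono (base_le hY t) le_rfl
  have hfm : Measurable (F v) := (hF v hv).1.mono (cm_le hFl hA r) le_rfl
  have hb : ∀ x, |((∏ w ∈ V.erase v, F w (Φ (p i w) x)) * W i x) *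
      Real.exp (c * ∑ j ∈ M', DD V Φ ℓ R F H (W j) (p j) v x / 2)| ≤
      1 * Real.exp (|c| * M'.card) := by
    intro x
    rw [abs_mul, abs_mul, abs_of_pos (Real.exp_pos _)]
    have h2 := prod_abs_le (Φ := Φ) (V := V.erase v) (F := F)
      (fun w hw => (hF w (Finset.mem_of_mem_erase hw)).2) (p i) x
    have h3 := (hW i).2 x
    have h4 : |∏ w ∈ V.erase v, F w (Φ (p i w) x)| * |W i x| ≤ 1 := by
      calc _ ≤ (1 : ℝ) * 1 := mul_le_mul h2 h3 (abs_nonneg _) zero_le_one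
        _ = 1 := one_mul 1
    refine mul_le_mul h4 ?_ (Real.exp_pos _).le zero_le_one
    apply Real.exp_le_exp.2
    refine (le_abs_self _).trans ?_
    rw [abs_mul]
    refine mul_le_mul_of_nonneg_left ?_ (abs_nonneg _)
    refine (Finset.abs_sum_le_sum_abs _ _).trans ?_
    refine (Finset.sum_le_sum (g := fun _ => (1 : ℝ)) fun j hj => ?_).trans (by simp)
    rw [abs_div, abs_two]
    have := DD_abs (Φ := Φ) (ℓ := ℓ) (R := R) hv (fun w hw => (hF w hw).2) hH.2.1 (hW j).2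
      (p j) x
    linarith
  have key := orth_shift hFl hA hfm hH (p i v) ((hprod.mul hWm).mul hexp) hb
  have e : ∀ x, DD V Φ ℓ R F H (W i) (p i) v x / 2 *
      Real.exp (c * ∑ j ∈ M', DD V Φ ℓ R F H (W j) (p j) v x / 2) =
      2⁻¹ * ((F v (Φ (p i v) x) - H v (Φ (p i v) x)) *
        ((((∏ w ∈ V.erase v, F w (Φ (p i w) x)) * W i x)) *
        Real.exp (c * ∑ j ∈ M', DD V Φ ℓ R F H (W j) (p j) v x / 2))) := by
    intro x
    conv_lhs =>
      enter [1, 1]
      unfold DD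
    rw [if_pos htop]
    ring
  simp only [e]
  rw [integral_const_mul]
  refine mul_eq_zero_of_right _ ?_
  exact key

theorem line_bound (hFl : Flow μ Φ) (hA : Filt mX mA Φ ℓ) (hY : Base mY mA Φ) {V : Finset J}
    {v : J} (hv : v ∈ V) {p : ℕ → J → G} {lam θ : ℝ} (hp : ∀ m : ℕ, ℓ (p m v) = lam + m * θ)
    {F H : J → X → ℝ} {W : ℕ → X → ℝ} {r s : G} {R : ℝ}
    (hsr : ℓ s ≤ ℓ r) (hR : ℓ r - ℓ s ≤ R) (hR0 : 0 ≤ R)
    (hF : ∀ w ∈ V, Measurable[cm mA Φ r] (F w) ∧ ∀ x, |F w x| ≤ 1)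
    (hH : CE μ (cm mA Φ s) (F v) (H v)) (hW : ∀ m, Measurable[mY] (W m) ∧ ∀ x, |W m x| ≤ 1)
    {L : ℕ} (hL : 0 < L) (hβ : R ≤ L * |θ|) (hβ0 : θ ≠ 0) {N : ℕ} (hN : 0 < N)
    {t : ℝ} (ht : 0 ≤ t) :
    μ.real {x | t ≤ |∑ m ∈ Finset.range N,
      DD V Φ ℓ R F H (W m) (p m) v x|} ≤
      L * (2 * Real.exp (-((t / (2 * L)) ^ 2 / (2 * N)))) := by
  classical
  have hL' : (0 : ℝ) < L := by exact_mod_cast hL
  have hmeas : ∀ m, Measurable (DD V Φ ℓ R F H (W m) (p m) v) := fun m =>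
    (DD_past hA hY hv hsr hR0 (fun w hw => (hF w hw).1) hH.1 (hW m).1
      (t := r * p m v) (hA.hom _ _).ge).mono (cm_le hFl hA _) le_rfl
  have key : ∀ ρ ∈ Finset.range L, μ.real {x | t / (2 * L) ≤
      |∑ m ∈ (Finset.range N).filter (fun m => m % L = ρ),
        DD V Φ ℓ R F H (W m) (p m) v x / 2|} ≤
      2 * Real.exp (-((t / (2 * L)) ^ 2 / (2 * N))) := by
    intro ρ _
    have hcard : ((Finset.range N).filter (fun m => m % L = ρ)).card ≤ N :=
      (Finset.card_filter_le _ _).trans (Finset.card_range N).le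
    have hM : ∀ m ∈ (Finset.range N).filter (fun m => m % L = ρ), m % L = ρ :=
      fun m hm => (Finset.mem_filter.1 hm).2
    have hb : ∀ m ∈ (Finset.range N).filter (fun m => m % L = ρ), ∀ x,
        |DD V Φ ℓ R F H (W m) (p m) v x / 2| ≤ 1 := by
      intro m _ x
      rw [abs_div, abs_two]
      have := DD_abs (Φ := Φ) (ℓ := ℓ) (R := R) hv (fun w hw => (hF w hw).2) hH.2.1 (hW m).2
        (p m) x
      linarith
    have hmm : ∀ m ∈ (Finset.range N).filter (fun m => m % L = ρ), Measurable fun x =>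
        DD V Φ ℓ R F H (W m) (p m) v x / 2 :=
      fun m _ => (hmeas m).div_const 2
    have hmod : ∀ i j : ℕ, j < i → i % L = j % L → (L : ℝ) ≤ (i : ℝ) - j := by
      intro i j hij h
      have h1 : L ∣ i - j := (Nat.modEq_iff_dvd' hij.le).1 h.symm
      have h2 := Nat.le_of_dvd (Nat.sub_pos_of_lt hij) h1
      have h3 : ((i - j : ℕ) : ℝ) = (i : ℝ) - j := Nat.cast_sub hij.le
      rw [← h3]
      exact_mod_cast h2
    rcases lt_or_gt_of_ne hβ0 with hneg | hpos
    · have hinj : Function.Injective fun m : ℕ => -(m : ℤ) := fun a b h => by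
        have : (a : ℤ) = b := neg_injective h
        exact_mod_cast this
      refine azuma hinj _ hmm hb ?_ (div_nonneg ht (by positivity)) hN hcard
      refine orth_line hFl hA hY hv hp hsr hR hR0 hF hH hW hβ _ ?_ ρ _ hM
      intro i j hij hmod'
      have hij' : i < j := by
        have : (i : ℤ) < j := by linarith
        exact_mod_cast this
      have h1 := hmod j i hij' hmod'.symm
      rw [abs_of_neg hneg]
      nlinarith
    · have hinj : Function.Injective fun m : ℕ => (m : ℤ) := Nat.cast_injective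
      refine azuma hinj _ hmm hb ?_ (div_nonneg ht (by positivity)) hN hcard
      refine orth_line hFl hA hY hv hp hsr hR hR0 hF hH hW hβ _ ?_ ρ _ hM
      intro i j hij hmod'
      have hij' : j < i := by exact_mod_cast hij
      have h1 := hmod i j hij' hmod'
      rw [abs_of_pos hpos]
      exact mul_le_mul_of_nonneg_right h1 hpos.le
  have hsub : {x | t ≤ |∑ m ∈ Finset.range N,
      DD V Φ ℓ R F H (W m) (p m) v x|} ⊆
      ⋃ ρ ∈ Finset.range L, {x | t / (2 * L) ≤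
      |∑ m ∈ (Finset.range N).filter (fun m => m % L = ρ),
        DD V Φ ℓ R F H (W m) (p m) v x / 2|} := by
    intro x hx
    by_contra hcon
    simp only [Set.mem_iUnion, Set.mem_ofPred_eq, not_exists, not_le] at hcon
    have h1 : ∑ m ∈ Finset.range N, DD V Φ ℓ R F H (W m) (p m) v x =
        2 * ∑ ρ ∈ Finset.range L, ∑ m ∈ (Finset.range N).filter (fun m => m % L = ρ),
          DD V Φ ℓ R F H (W m) (p m) v x / 2 := by
      rw [Finset.sum_fiberwise_of_maps_to (s := Finset.range N) (t := Finset.range L)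
        (g := fun m => m % L) (fun m _ => Finset.mem_range.2 (Nat.mod_lt _ hL)), Finset.mul_sum]
      refine Finset.sum_congr rfl fun m _ => ?_
      ring
    have h2 : |∑ m ∈ Finset.range N, DD V Φ ℓ R F H (W m) (p m) v x| < t := by
      rw [h1, abs_mul, abs_two]
      have h3 : |∑ ρ ∈ Finset.range L, ∑ m ∈ (Finset.range N).filter (fun m => m % L = ρ),
          DD V Φ ℓ R F H (W m) (p m) v x / 2| < L * (t / (2 * L)) := by
        refine (Finset.abs_sum_le_sum_abs _ _).trans_lt ?_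
        refine (Finset.sum_lt_sum_of_nonempty ⟨0, Finset.mem_range.2 hL⟩
          fun ρ hρ => hcon ρ hρ).trans_le ?_
        rw [Finset.sum_const, Finset.card_range, nsmul_eq_mul]
      calc 2 * _ < 2 * (L * (t / (2 * L))) := by linarith
        _ = t := by field_simp
    exact absurd hx (not_le.2 h2)
  refine (measureReal_mono hsub (measure_ne_top _ _)).trans
    ((measureReal_biUnion_finset_le _ _).trans ?_)
  refine (Finset.sum_le_sum key).trans ?_
  rw [Finset.sum_const, Finset.card_range, nsmul_eq_mul]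

end Pool.Agent.TH784.KE
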