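import Pool.Agent.TH784.KE.Zero
import Pool.Agent.TH784.KE.CE

/-!
# Complex valued functions: convergence to zero
-/

set_option autoImplicit false
set_option linter.unusedSectionVars false

open MeasureTheory Filter Topology
open scoped ENNReal

noncomputable section

namespace Pool.Agent.TH784.KE

open Pool.Agent.W761.Box (bx bxc BM Good1 good1 prod_update bxc_add bxc_sub bxc_mul bxc_norm
  bx_mono bx_mul int_lim_le')

section cz

variable {X : Type*} [MeasurableSpace X] {J : Type*} [Fintype J] [DecidableEq J] {k : ℕ}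

/-- convergence to zero -/
def Cz (μ : Measure X) (g : J → (Fin k → ℕ) → X → X) (F : J → X → ℂ) : Prop :=
  ∀ᵐ x ∂μ, Tendsto (fun N => bxc k N fun m => ∏ j, F j (g j m x)) atTop (𝓝 0)

theorem Cz_add {μ : Measure X} {g : J → (Fin k → ℕ) → X → X} {F : J → X → ℂ} {j : J}
    {f f' : X → ℂ}
    (hf : Cz μ g (Function.update F j f)) (hg : Cz μ g (Function.update F j f')) :
    Cz μ g (Function.update F j (f + f')) := by
  filter_upwards [hf, hg] with x hx hx'
  have h := hx.add hx'
  rw [add_zero] at h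
  refine h.congr fun N => ?_
  rw [← bxc_add]
  congr 1
  funext n
  rw [prod_update, prod_update, prod_update, Pi.add_apply, add_mul]

theorem Cz_smul {μ : Measure X} {g : J → (Fin k → ℕ) → X → X} {F : J → X → ℂ} {j : J}
    {f : X → ℂ} (c : ℂ) (hf : Cz μ g (Function.update F j f)) :
    Cz μ g (Function.update F j (c • f)) := by
  filter_upwards [hf] with x hx
  have h := hx.const_mul c
  rw [mul_zero] at h
  refine h.congr fun N => ?_
  rw [← bxc_mul]
  congr 1
  funext n
  rw [prod_update, prod_update, Pi.smul_apply, smul_eq_mul, mul_assoc]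

theorem Cz_closed {μ : Measure X} [IsProbabilityMeasure μ] {g : J → (Fin k → ℕ) → X → X}
    (hg : ∀ j m, MeasurePreserving (g j m) μ μ) (hgood : ∀ j, Good1 μ (g j))
    {F : J → X → ℂ} (hF : ∀ l, BM (F l)) {j : J} {f : X → ℂ} (hf : BM f)
    (h : ∀ ε : ℝ, 0 < ε → ∃ f' : X → ℂ, BM f' ∧ ∫ x, ‖f x - f' x‖ ∂μ ≤ ε ∧
      Cz μ g (Function.update F j f')) :
    Cz μ g (Function.update F j f) := by
  obtain ⟨hfm, Cf, hCf⟩ := hf
  choose hFm CF hCF using hF
  set D : ℝ := ∏ l ∈ Finset.univ.erase j, (|CF l| + 1) with hD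
  have hD0 : 0 < D := Finset.prod_pos fun l _ => by positivity
  have hDb : ∀ (m : Fin k → ℕ) (x : X),
      ‖∏ l ∈ Finset.univ.erase j, F l (g l m x)‖ ≤ D := by
    intro m x
    rw [norm_prod]
    apply Finset.prod_le_prod (fun l _ => norm_nonneg _)
    intro l _
    exact ((hCF l _).trans (le_abs_self _)).trans (by linarith)
  set G := Function.update F j f with hG
  let Av : (J → X → ℂ) → (Fin k → ℕ) → X → ℂ :=
    fun E N x => bxc k N (fun m => ∏ l, E l (g l m x))
  have hbad : ∀ δ : ℝ, 0 < δ → ∀ᵐ x ∂μ, ∀ᶠ N in atTop, ‖Av G N x‖ ≤ δ := by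
    intro δ hδ
    rw [ae_iff, ← nonpos_iff_eq_zero]
    apply ENNReal.le_of_forall_pos_le_add
    intro ε hε _
    rw [zero_add]
    have hε' : (0 : ℝ) < ε := by exact_mod_cast hε
    obtain ⟨f', ⟨hgm, Cg, hCg⟩, hfg, hcv⟩ := h (ε * (δ / (4 * D))) (by positivity)
    let K : X → ℝ := fun x => ‖f x - f' x‖
    have hKm : Measurable K := (hfm.sub hgm).norm
    have hKb : ∀ x, |K x| ≤ |Cf + Cg| := fun x => by
      show |‖f x - f' x‖| ≤ _
      rw [abs_of_nonneg (norm_nonneg _)]
      exact ((norm_sub_le _ _).trans (add_le_add (hCf x) (hCg x))).trans (le_abs_self _)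
    have hB := hgood j K hKm ⟨_, hKb⟩
    let E : X → ℝ := fun x => limUnder atTop (fun N => bx k N fun m => K (g j m x))
    have hE : ∀ᵐ x ∂μ, Tendsto (fun N => bx k N fun m => K (g j m x)) atTop (𝓝 (E x)) := by
      filter_upwards [hB] with x hx
      exact tendsto_nhds_limUnder hx
    obtain ⟨hE0, hEi, hEint⟩ := int_lim_le' (hg j) hKm (abs_nonneg _) hKb
      (fun x => norm_nonneg _) hE
    have hmark := mul_meas_ge_le_integral_of_nonneg hE0 hEi (δ / (4 * D))
    have hmark' : μ.real {x | δ / (4 * D) ≤ E x} ≤ ε := by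
      have h1 : δ / (4 * D) * μ.real {x | δ / (4 * D) ≤ E x} ≤ δ / (4 * D) * ε := by
        refine hmark.trans ((hEint.trans hfg).trans ?_)
        rw [mul_comm]
      exact le_of_mul_le_mul_left h1 (by positivity)
    have hsub : ∀ᵐ x ∂μ, x ∈ {x | ¬ ∀ᶠ N in atTop, ‖Av G N x‖ ≤ δ} →
        x ∈ {x | δ / (4 * D) ≤ E x} := by
      filter_upwards [hE, hcv] with x hx1 hx2 hx3
      show δ / (4 * D) ≤ E x
      by_contra hcon
      rw [not_le] at hcon
      apply hx3
      have h2 := (tendsto_order.mp hx1).2 _ hcon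
      have hx2' := hx2.norm
      rw [norm_zero] at hx2'
      have h3 := (tendsto_order.mp hx2').2 (δ / 4) (by positivity)
      filter_upwards [h2, h3] with N hN1 hN2
      have hclose : ‖Av G N x - Av (Function.update F j f') N x‖ ≤ δ / 4 := by
        show ‖bxc k N (fun m => ∏ l, G l (g l m x)) -
          bxc k N (fun m => ∏ l, (Function.update F j f') l (g l m x))‖ ≤ δ / 4
        rw [← bxc_sub]
        refine (bxc_norm _ _ _).trans ?_
        have h3 : ∀ m, ‖∏ l, G l (g l m x) - ∏ l, (Function.update F j f') l (g l m x)‖ ≤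
            D * K (g j m x) := by
          intro m
          rw [hG, prod_update, prod_update, ← sub_mul, norm_mul, mul_comm]
          exact mul_le_mul_of_nonneg_right (hDb _ x) (norm_nonneg _)
        refine (bx_mono h3).trans ?_
        rw [bx_mul]
        calc D * bx k N (fun m => K (g j m x)) ≤ D * (δ / (4 * D)) :=
              mul_le_mul_of_nonneg_left hN1.le hD0.le
          _ = δ / 4 := by field_simp
      have e1 : Av G N x = (Av G N x - Av (Function.update F j f') N x) +
          Av (Function.update F j f') N x := by ring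
      rw [e1]
      have b1 := norm_add_le (Av G N x - Av (Function.update F j f') N x)
        (Av (Function.update F j f') N x)
      have b2 : ‖Av (Function.update F j f') N x‖ < δ / 4 := hN2
      linarith
    have h10 : μ {x | ¬ ∀ᶠ N in atTop, ‖Av G N x‖ ≤ δ} ≤ μ {x | δ / (4 * D) ≤ E x} :=
      measure_mono_ae hsub
    refine h10.trans ?_
    have h9 : μ {x | δ / (4 * D) ≤ E x} = ENNReal.ofReal (μ.real {x | δ / (4 * D) ≤ E x}) := by
      rw [measureReal_def, ENNReal.ofReal_toReal (measure_ne_top _ _)]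
    rw [h9]
    calc ENNReal.ofReal (μ.real {x | δ / (4 * D) ≤ E x}) ≤ ENNReal.ofReal (ε : ℝ) :=
          ENNReal.ofReal_le_ofReal hmark'
      _ = ε := ENNReal.ofReal_coe_nnreal
  have hall := ae_all_iff.mpr fun i : ℕ => hbad (1 / ((i : ℝ) + 1)) (by positivity)
  filter_upwards [hall] with x hx
  rw [Metric.tendsto_nhds]
  intro ε hε
  obtain ⟨i, hi⟩ := exists_nat_one_div_lt hε
  filter_upwards [hx i] with N hN
  rw [dist_eq_norm, sub_zero]
  exact hN.trans_lt hi

end cz

variable {X : Type*} {mA mY mX : MeasurableSpace X} {μ : Measure X} [IsProbabilityMeasure μ]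
variable {G : Type*} [Group G]
variable {Φ : G →* Equiv.Perm X} {ℓ : G → ℝ}

theorem small_past' (hFl : Flow μ Φ) (hA : Filt mX mA Φ ℓ) {s₀ : G} (hs₀ : 0 < ℓ s₀)
    (htail : ∀ B, (∀ a, MeasurableSet[cm mA Φ a] B) → ∃ B', MeasurableSet[mY] B' ∧ B =ᵐ[μ] B')
    {f : X → ℝ} (hf : Measurable f) (hb : ∀ x, |f x| ≤ 1) (hV : Van μ mY f) {ε : ℝ}
    (hε : 0 < ε) :
    ∃ s₁ : G, ∀ s : G, ℓ s ≤ ℓ s₁ → ∫ x, |(μ[f | cm mA Φ s]) x| ∂μ ≤ ε := by
  obtain ⟨s₁, -, h1⟩ := small_past hFl hA hs₀ htail hf hb hV hε 1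
  refine ⟨s₁, fun s hs => ?_⟩
  have h2 := condExp_condExp_of_le (μ := μ) (f := f) (cm_mono hA hs) (cm_le hFl hA s₁)
  have h3 : ∫ x, |(μ[f | cm mA Φ s]) x| ∂μ =
      ∫ x, |(μ[μ[f | cm mA Φ s₁] | cm mA Φ s]) x| ∂μ := by
    apply integral_congr_ae
    filter_upwards [h2] with x hx
    rw [hx]
  rw [h3]
  exact (integral_abs_condExp_le _).trans h1

variable {J : Type*} [DecidableEq J] [Fintype J] {k : ℕ}

/-- The standing assumptions. -/
structure KExt (μ : Measure X) (mA mY : MeasurableSpace X) (Φ : G →* Equiv.Perm X)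
    (ℓ : G → ℝ) : Prop where
  fl : Flow μ Φ
  filt : Filt mX mA Φ ℓ
  base : Base mY mA Φ
  gen : ∀ B, MeasurableSet[mX] B → ∃ B', MeasurableSet[⨆ a, cm mA Φ a] B' ∧ B =ᵐ[μ] B'
  tail : ∀ B, (∀ a, MeasurableSet[cm mA Φ a] B) → ∃ B', MeasurableSet[mY] B' ∧ B =ᵐ[μ] B'

/-- condition on a real function -/
def Adm (μ : Measure X) (mA mY : MeasurableSpace X) (Φ : G →* Equiv.Perm X) (S : Finset J)
    (v : J) (f : X → ℝ) : Prop :=
  (∀ x, |f x| ≤ 1) ∧ (v ∈ S → (∃ r : G, Measurable[cm mA Φ r] f) ∧ Van μ mY f) ∧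
    (v ∉ S → Measurable[mY] f)

theorem exists_upper (hA : Filt mX mA Φ ℓ) {s₀ : G} (hs₀ : 0 < ℓ s₀) (r : J → G) :
    ∃ R : G, ∀ v, ℓ (r v) ≤ ℓ R := by
  have h1 : ∀ v : J, ∀ᶠ n : ℕ in atTop, ℓ (r v) ≤ ℓ (s₀ ^ n) := by
    intro v
    have h2 : Tendsto (fun n : ℕ => (n : ℝ) * ℓ s₀) atTop atTop :=
      tendsto_natCast_atTop_atTop.atTop_mul_const hs₀
    filter_upwards [h2.eventually_ge_atTop (ℓ (r v))] with n hn
    rw [hA.pow]
    exact hn
  obtain ⟨n, hn⟩ := (eventually_all.2 h1).exists
  exact ⟨s₀ ^ n, hn⟩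

theorem exists_lower (hA : Filt mX mA Φ ℓ) {s₀ : G} (hs₀ : 0 < ℓ s₀) (r : J → G) :
    ∃ R : G, ∀ v, ℓ R ≤ ℓ (r v) := by
  obtain ⟨R, hR⟩ := exists_upper hA hs₀ (fun v => (r v)⁻¹)
  refine ⟨R⁻¹, fun v => ?_⟩
  have := hR v
  rw [hA.inv] at this
  rw [hA.inv]
  linarith

theorem zero_real (hk : 0 < k) (hK : KExt μ mA mY Φ ℓ) {s₀ : G} (hs₀ : 0 < ℓ s₀)
    {S : Finset J} {q : (Fin k → ℕ) → J → G} {lam : J → ℝ} {θ : J → Fin k → ℝ}
    (hq : ∀ n v, ℓ (q n v) = pos lam θ n v)
    (h1 : ∀ v ∈ S, ∀ l, θ v l = 0 → ∀ n t, q (Function.update n l t) v = q n v)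
    (h2 : ∀ l, ∃ v ∈ S, θ v l ≠ 0)
    (h3 : ∀ v ∈ S, ∀ w ∈ S, v ≠ w → ∃ l, θ v l ≠ θ w l)
    (hgood : ∀ v, Good1 μ fun n => (Φ (q n v) : X → X))
    {f : J → X → ℝ} (hf : ∀ v, Adm μ mA mY Φ S v (f v)) :
    ∀ᵐ x ∂μ, Tendsto (fun N => bx k N fun n => ∏ v, f v (Φ (q n v) x)) atTop (𝓝 0) := by
  classical
  have hr' : ∀ v : J, ∃ r : G, v ∈ S → Measurable[cm mA Φ r] (f v) := by
    intro v
    by_cases hv : v ∈ S
    · obtain ⟨⟨r, hr⟩, _⟩ := (hf v).2.1 hv
      exact ⟨r, fun _ => hr⟩
    · exact ⟨1, fun h => absurd h hv⟩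
  choose r₀ hr₀ using hr'
  obtain ⟨r, hr⟩ := exists_upper hK.filt hs₀ r₀
  have hFm : ∀ v ∈ S, Measurable[cm mA Φ r] (f v) := fun v hv =>
    (hr₀ v hv).mono (cm_mono hK.filt (hr v)) le_rfl
  have hFmX : ∀ v ∈ S, Measurable (f v) := fun v hv =>
    (hFm v hv).mono (cm_le hK.fl hK.filt r) le_rfl
  refine box_zero hk hK.fl hK.filt hK.base hq h1 h2 h3 (fun v _ => hgood v) hFm
    (fun v => (hf v).1)
    (fun v hv => (hf v).2.2 hv) fun ε hε => ?_
  have hs' : ∀ v : J, ∃ s₁ : G, v ∈ S → ∀ s : G, ℓ s ≤ ℓ s₁ →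
      ∫ x, |(μ[f v | cm mA Φ s]) x| ∂μ ≤ ε := by
    intro v
    by_cases hv : v ∈ S
    · obtain ⟨s₁, hs₁⟩ := small_past' hK.fl hK.filt hs₀ hK.tail (hFmX v hv) (hf v).1
        ((hf v).2.1 hv).2 hε
      exact ⟨s₁, fun _ => hs₁⟩
    · exact ⟨1, fun h => absurd h hv⟩
  choose s₁ hs₁ using hs'
  obtain ⟨s₂, hs₂⟩ := exists_lower hK.filt hs₀ s₁
  obtain ⟨s, hs⟩ := exists_lower (J := Bool) hK.filt hs₀ (fun b => if b then s₂ else r)
  have hss₂ : ℓ s ≤ ℓ s₂ := hs true
  have hsr : ℓ s ≤ ℓ r := hs false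
  have hG' : ∀ v : J, ∃ g : X → ℝ, v ∈ S → (CE μ (cm mA Φ s) (f v) g ∧
      g =ᵐ[μ] μ[f v | cm mA Φ s]) := by
    intro v
    by_cases hv : v ∈ S
    · obtain ⟨g, hg⟩ := exists_CE (cm_le hK.fl hK.filt s) (hFmX v hv) (hf v).1 (μ := μ)
      exact ⟨g, fun _ => hg⟩
    · exact ⟨0, fun h => absurd h hv⟩
  choose G hG using hG'
  refine ⟨s, hsr, G, fun v hv => (hG v hv).1, fun v hv => ?_⟩
  have e : ∫ x, |G v x| ∂μ = ∫ x, |(μ[f v | cm mA Φ s]) x| ∂μ := by
    apply integral_congr_ae
    filter_upwards [(hG v hv).2] with x hx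
    rw [hx]
  rw [e]
  exact hs₁ v hv s (hss₂.trans (hs₂ v))

/-- condition on a complex function -/
def AdmC (μ : Measure X) (mY : MeasurableSpace X) (S : Finset J) (v : J) (F : X → ℂ) : Prop :=
  @Pool.Agent.W761.Box.BM X mX F ∧
    (v ∈ S → ∀ B : Set X, MeasurableSet[mY] B → ∫ x in B, F x ∂μ = 0) ∧
    (v ∉ S → Measurable[mY] F)

theorem bxc_cast (N : Fin k → ℕ) (f : (Fin k → ℕ) → ℝ) :
    bxc k N (fun n => (f n : ℂ)) = (bx k N f : ℂ) := by
  unfold Pool.Agent.W761.Box.bxc Pool.Agent.W761.Box.bx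
  push_cast
  rfl

theorem Adm.bm (hK : KExt μ mA mY Φ ℓ) {S : Finset J} {v : J} {f : X → ℝ}
    (hf : Adm μ mA mY Φ S v f) : BM fun x => (f x : ℂ) := by
  have hm : Measurable f := by
    by_cases hv : v ∈ S
    · obtain ⟨⟨r, hr⟩, _⟩ := hf.2.1 hv
      exact hr.mono (cm_le hK.fl hK.filt r) le_rfl
    · exact (hf.2.2 hv).mono (hK.base.le.trans hK.filt.le) le_rfl
  exact ⟨Complex.measurable_ofReal.comp hm, 1, fun x => by
    rw [Complex.norm_real]
    exact hf.1 x⟩

/-- **Convergence to zero.** -/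
theorem zero_complex (hk : 0 < k) (hK : KExt μ mA mY Φ ℓ) {s₀ : G} (hs₀ : 0 < ℓ s₀)
    {S : Finset J} {q : (Fin k → ℕ) → J → G} {lam : J → ℝ} {θ : J → Fin k → ℝ}
    (hq : ∀ n v, ℓ (q n v) = pos lam θ n v)
    (h1 : ∀ v ∈ S, ∀ l, θ v l = 0 → ∀ n t, q (Function.update n l t) v = q n v)
    (h2 : ∀ l, ∃ v ∈ S, θ v l ≠ 0)
    (h3 : ∀ v ∈ S, ∀ w ∈ S, v ≠ w → ∃ l, θ v l ≠ θ w l)
    (hgood : ∀ v, Good1 μ fun n => (Φ (q n v) : X → X))
    {F : J → X → ℂ} (hF : ∀ v, AdmC μ mY S v (F v)) :
    Cz μ (fun v n => (Φ (q n v) : X → X)) F := by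
  classical
  set g : J → (Fin k → ℕ) → X → X := fun v n => (Φ (q n v) : X → X) with hg
  have key : ∀ (B : Finset J) (F : J → X → ℂ), (∀ v ∈ B, AdmC μ mY S v (F v)) →
      (∀ v ∉ B, ∃ f : X → ℝ, Adm μ mA mY Φ S v f ∧ F v = fun x => (f x : ℂ)) → Cz μ g F := by
    intro B
    induction B using Finset.induction_on with
    | empty =>
      intro F _ hF2
      choose f hf hFf using fun v => hF2 v (Finset.notMem_empty v)
      have h4 := zero_real hk hK hs₀ hq h1 h2 h3 hgood hf
      filter_upwards [h4] with x hx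
      have h5 := (Complex.continuous_ofReal.tendsto _).comp hx
      rw [Complex.ofReal_zero] at h5
      refine h5.congr fun N => ?_
      rw [Function.comp_apply, ← bxc_cast]
      congr 1
      funext n
      push_cast
      refine Finset.prod_congr rfl fun v _ => ?_
      rw [hFf v]
    | insert v B hv ih =>
      intro F hF1 hF2
      have hBMall : ∀ w, BM (F w) := by
        intro w
        by_cases hw : w ∈ insert v B
        · exact (hF1 w hw).1
        · obtain ⟨f, hf, e⟩ := hF2 w hw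
          rw [e]
          exact hf.bm hK
      have hcast : ∀ f : X → ℝ, Adm μ mA mY Φ S v f →
          Cz μ g (Function.update F v fun x => (f x : ℂ)) := by
        intro f hf
        apply ih
        · intro w hw
          have hwv : w ≠ v := fun e => hv (e ▸ hw)
          rw [Function.update_of_ne hwv]
          exact hF1 w (Finset.mem_insert_of_mem hw)
        · intro w hw
          by_cases hwv : w = v
          · subst hwv
            exact ⟨f, hf, by rw [Function.update_self]⟩
          · rw [Function.update_of_ne hwv]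
            apply hF2
            intro hmem
            rcases Finset.mem_insert.mp hmem with h5 | h5
            · exact hwv h5
            · exact hw h5
      have hcomb : ∀ (C : ℝ) (f₁ f₂ : X → ℝ), Adm μ mA mY Φ S v f₁ → Adm μ mA mY Φ S v f₂ →
          Cz μ g (Function.update F v (((C : ℂ) • fun x => (f₁ x : ℂ)) +
            ((C : ℂ) * Complex.I) • fun x => (f₂ x : ℂ))) := by
        intro C f₁ f₂ hf₁ hf₂
        exact Cz_add (Cz_smul _ (hcast f₁ hf₁)) (Cz_smul _ (hcast f₂ hf₂))
      obtain ⟨hBM, hSv, hSv'⟩ := hF1 v (Finset.mem_insert_self v B)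
      obtain ⟨hFm, C₀, hC₀⟩ := hBM
      set C : ℝ := |C₀| + 1 with hC
      have hCpos : 0 < C := by positivity
      have hCb : ∀ x, ‖F v x‖ ≤ C := fun x =>
        ((hC₀ x).trans (le_abs_self _)).trans (by rw [hC]; linarith)
      set f₁ : X → ℝ := fun x => (F v x).re / C with hf₁
      set f₂ : X → ℝ := fun x => (F v x).im / C with hf₂
      have hb₁ : ∀ x, |f₁ x| ≤ 1 := by
        intro x
        rw [hf₁]
        show |(F v x).re / C| ≤ 1
        rw [abs_div, abs_of_pos hCpos, div_le_one hCpos]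
        exact (Complex.abs_re_le_norm _).trans (hCb x)
      have hb₂ : ∀ x, |f₂ x| ≤ 1 := by
        intro x
        rw [hf₂]
        show |(F v x).im / C| ≤ 1
        rw [abs_div, abs_of_pos hCpos, div_le_one hCpos]
        exact (Complex.abs_im_le_norm _).trans (hCb x)
      have hm₁ : Measurable f₁ := (Complex.measurable_re.comp hFm).div_const _
      have hm₂ : Measurable f₂ := (Complex.measurable_im.comp hFm).div_const _
      have hdec : ∀ x, F v x = (C : ℂ) * (f₁ x : ℂ) + (C : ℂ) * Complex.I * (f₂ x : ℂ) := by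
        intro x
        have hC' : (C : ℂ) ≠ 0 := by exact_mod_cast hCpos.ne'
        rw [hf₁, hf₂]
        push_cast
        field_simp
        exact (Complex.re_add_im (F v x)).symm.trans (by ring)
      have hgoal : Cz μ g (Function.update F v (F v)) := by
        by_cases hvS : v ∈ S
        · have hFi : Integrable (F v) μ := Integrable.of_bound hFm.aestronglyMeasurable C
            (Eventually.of_forall hCb)
          have hV₁ : Van μ mY f₁ := by
            intro B hB
            have h4 := hSv hvS B hB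
            have h5 : ∫ x in B, f₁ x ∂μ = (∫ x in B, F v x ∂μ).re / C := by
              rw [hf₁, integral_div]
              congr 1
              exact integral_re hFi.integrableOn
            rw [h5, h4]
            simp
          have hV₂ : Van μ mY f₂ := by
            intro B hB
            have h4 := hSv hvS B hB
            have h5 : ∫ x in B, f₂ x ∂μ = (∫ x in B, F v x ∂μ).im / C := by
              rw [hf₂, integral_div]
              congr 1
              exact integral_im hFi.integrableOn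
            rw [h5, h4]
            simp
          refine Cz_closed (fun w n => hK.fl _) hgood hBMall ⟨hFm, C, hCb⟩ ?_
          intro ε hε
          have happ : ∀ f : X → ℝ, Measurable f → (∀ x, |f x| ≤ 1) → Van μ mY f →
              ∃ g' : X → ℝ, Adm μ mA mY Φ S v g' ∧ ∫ x, |f x - g' x| ∂μ ≤ ε / (2 * C) := by
            intro f hfm hfb hfV
            obtain ⟨r, hr⟩ := dense_future hK.fl hK.filt hs₀ hK.gen hfm hfb
              (show (0 : ℝ) < ε / (2 * C) by positivity)
            obtain ⟨g', hg', hge⟩ := exists_CE (cm_le hK.fl hK.filt r) hfm hfb (μ := μ)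
            refine ⟨g', ⟨hg'.2.1, fun _ => ⟨⟨r, hg'.1⟩, van_CE (cm_le hK.fl hK.filt r)
              (base_le hK.base r) hfm hfb hg' hfV⟩, fun h => absurd hvS h⟩, ?_⟩
            refine le_trans (le_of_eq ?_) hr
            apply integral_congr_ae
            filter_upwards [hge] with x hx
            rw [hx]
          obtain ⟨g₁, hg₁, hg₁'⟩ := happ f₁ hm₁ hb₁ hV₁
          obtain ⟨g₂, hg₂, hg₂'⟩ := happ f₂ hm₂ hb₂ hV₂
          obtain ⟨hg₁m, -⟩ := hg₁.bm hK
          obtain ⟨hg₂m, -⟩ := hg₂.bm hK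
          have hg₁r : Measurable g₁ := by
            have := Complex.measurable_re.comp hg₁m
            exact this
          have hg₂r : Measurable g₂ := by
            have := Complex.measurable_re.comp hg₂m
            exact this
          refine ⟨((C : ℂ) • fun x => (g₁ x : ℂ)) + ((C : ℂ) * Complex.I) • fun x => (g₂ x : ℂ),
            ⟨(hg₁m.const_smul _).add (hg₂m.const_smul _), 2 * C, fun x => ?_⟩, ?_,
            hcomb C g₁ g₂ hg₁ hg₂⟩
          · simp only [Pi.add_apply, Pi.smul_apply, smul_eq_mul]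
            refine (norm_add_le _ _).trans ?_
            rw [norm_mul, norm_mul, norm_mul, Complex.norm_I, Complex.norm_real,
              Complex.norm_real, Complex.norm_real, Real.norm_of_nonneg hCpos.le,
              Real.norm_eq_abs, Real.norm_eq_abs]
            have a1 := hg₁.1 x
            have a2 := hg₂.1 x
            nlinarith [abs_nonneg (g₁ x), abs_nonneg (g₂ x)]
          · have hi₁ : Integrable (fun x => |f₁ x - g₁ x|) μ := by
              refine Integrable.of_bound (hm₁.sub hg₁r).abs.aestronglyMeasurable 2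
                (Eventually.of_forall fun x => ?_)
              rw [Real.norm_eq_abs, abs_abs]
              exact (abs_sub _ _).trans (by linarith [hb₁ x, hg₁.1 x])
            have hi₂ : Integrable (fun x => |f₂ x - g₂ x|) μ := by
              refine Integrable.of_bound (hm₂.sub hg₂r).abs.aestronglyMeasurable 2
                (Eventually.of_forall fun x => ?_)
              rw [Real.norm_eq_abs, abs_abs]
              exact (abs_sub _ _).trans (by linarith [hb₂ x, hg₂.1 x])
            have hle : ∀ x, ‖F v x - (((C : ℂ) • fun x => (g₁ x : ℂ)) +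
                ((C : ℂ) * Complex.I) • fun x => (g₂ x : ℂ)) x‖ ≤
                C * |f₁ x - g₁ x| + C * |f₂ x - g₂ x| := by
              intro x
              simp only [Pi.add_apply, Pi.smul_apply, smul_eq_mul]
              rw [hdec x]
              have e : (C : ℂ) * (f₁ x : ℂ) + (C : ℂ) * Complex.I * (f₂ x : ℂ) -
                  ((C : ℂ) * (g₁ x : ℂ) + (C : ℂ) * Complex.I * (g₂ x : ℂ)) =
                  (C : ℂ) * ((f₁ x - g₁ x : ℝ) : ℂ) +
                    (C : ℂ) * Complex.I * ((f₂ x - g₂ x : ℝ) : ℂ) := by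
                push_cast
                ring
              rw [e]
              refine (norm_add_le _ _).trans ?_
              rw [norm_mul, norm_mul, norm_mul, Complex.norm_I, Complex.norm_real,
                Complex.norm_real, Complex.norm_real, Real.norm_of_nonneg hCpos.le,
                Real.norm_eq_abs, Real.norm_eq_abs, mul_one]
            refine (integral_mono_of_nonneg (Eventually.of_forall fun x => norm_nonneg _)
              ((hi₁.const_mul C).add (hi₂.const_mul C)) (Eventually.of_forall hle)).trans ?_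
            rw [integral_add' (hi₁.const_mul C) (hi₂.const_mul C), integral_const_mul,
              integral_const_mul]
            calc C * ∫ x, |f₁ x - g₁ x| ∂μ + C * ∫ x, |f₂ x - g₂ x| ∂μ ≤
                C * (ε / (2 * C)) + C * (ε / (2 * C)) :=
                  add_le_add (mul_le_mul_of_nonneg_left hg₁' hCpos.le)
                    (mul_le_mul_of_nonneg_left hg₂' hCpos.le)
              _ = ε := by field_simp; norm_num
        · have hFY := hSv' hvS
          have a₁ : Adm μ mA mY Φ S v f₁ := ⟨hb₁, fun h => absurd h hvS, fun _ =>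
            (Complex.measurable_re.comp hFY).div_const _⟩
          have a₂ : Adm μ mA mY Φ S v f₂ := ⟨hb₂, fun h => absurd h hvS, fun _ =>
            (Complex.measurable_im.comp hFY).div_const _⟩
          have e : F v = ((C : ℂ) • fun x => (f₁ x : ℂ)) +
              ((C : ℂ) * Complex.I) • fun x => (f₂ x : ℂ) := by
            funext x
            simp only [Pi.add_apply, Pi.smul_apply, smul_eq_mul]
            exact hdec x
          have h6 := hcomb C f₁ f₂ a₁ a₂
          rw [← e] at h6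
          exact h6
      rwa [Function.update_eq_self] at hgoal
  exact key Finset.univ F (fun v _ => hF v) fun v hv => absurd (Finset.mem_univ v) hv

end Pool.Agent.TH784.KE
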