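import Pool.Agent.TH784.KE.Multi
import Pool.Agent.TH784.AA.Fin

/-!
# One-parameter averages: the base is characteristic
-/

set_option autoImplicit false
set_option linter.unusedSectionVars false

open MeasureTheory Filter Topology
open scoped ENNReal

noncomputable section

namespace Pool.Agent.TH784.KE

open Pool.Agent.W761.Box (bx bxc BM Good1 bxc_add bxc_sub bxc_mul dz orb)

theorem bxc_sum {k : ℕ} (N : Fin k → ℕ) {ι : Type*} (s : Finset ι)
    (a : ι → (Fin k → ℕ) → ℂ) :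
    bxc k N (fun m => ∑ i ∈ s, a i m) = ∑ i ∈ s, bxc k N (a i) := by
  unfold Pool.Agent.W761.Box.bxc
  rw [Finset.sum_comm, Finset.mul_sum]

/-- two-sided averages from one-sided averages -/
theorem two_sided_zero {F : ℤ → ℂ}
    (h1 : Tendsto (fun N => bxc 1 N fun m => F (m 0 : ℤ)) atTop (𝓝 0))
    (h2 : Tendsto (fun N => bxc 1 N fun m => F (-(m 0 : ℤ))) atTop (𝓝 0)) :
    Tendsto (fun N : ℕ => ((2 * N + 1 : ℕ) : ℂ)⁻¹ *
      ∑ n ∈ Finset.Icc (-(N : ℤ)) (N : ℤ), F n) atTop (𝓝 0) := by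
  have hN : Tendsto (fun (N : ℕ) (_ : Fin 1) => N + 1) atTop atTop :=
    tendsto_atTop_atTop.2 fun b => ⟨b 0, fun N hN j => by
      rw [Subsingleton.elim j 0]
      show b 0 ≤ N + 1
      omega⟩
  have hbx : ∀ (G : ℕ → ℂ) (N : ℕ), bxc 1 (fun _ => N + 1) (fun m => G (m 0)) =
      ((N : ℂ) + 1)⁻¹ * ∑ n ∈ Finset.range (N + 1), G n := by
    intro G N
    rw [Pool.Agent.TH784.AA.bxc_eq]
    congr 1
    · unfold Pool.Agent.TH784.AA.vol
      rw [Fin.prod_univ_one]
      push_cast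
      rfl
    · refine Finset.sum_nbij' (fun m => m 0) (fun n _ => n) ?_ ?_ ?_ ?_ ?_
      · intro m hm
        rw [Pool.Agent.TH784.AA.mem_bxs] at hm
        exact Finset.mem_range.2 (hm 0)
      · intro n hn
        rw [Pool.Agent.TH784.AA.mem_bxs]
        intro _
        exact Finset.mem_range.1 hn
      · intro m _
        funext j
        rw [Subsingleton.elim j 0]
      · intro n _
        rfl
      · intro m _
        rfl
  have e1 := h1.comp hN
  have e2 := h2.comp hN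
  have e1' : Tendsto (fun N : ℕ => ((N : ℂ) + 1)⁻¹ * ∑ n ∈ Finset.range (N + 1), F (n : ℤ))
      atTop (𝓝 0) := e1.congr fun N => hbx (fun n => F (n : ℤ)) N
  have e2' : Tendsto (fun N : ℕ => ((N : ℂ) + 1)⁻¹ * ∑ n ∈ Finset.range (N + 1), F (-(n : ℤ)))
      atTop (𝓝 0) := e2.congr fun N => hbx (fun n => F (-(n : ℤ))) N
  have hinv : Tendsto (fun N : ℕ => ((2 * N + 1 : ℕ) : ℂ)⁻¹) atTop (𝓝 0) := by
    have h3 : Tendsto (fun N : ℕ => ((2 * N + 1 : ℕ) : ℝ)⁻¹) atTop (𝓝 0) := by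
      apply tendsto_inv_atTop_zero.comp
      exact tendsto_natCast_atTop_atTop.comp
        (tendsto_atTop_atTop.2 fun b => ⟨b, fun a ha => by omega⟩)
    have h4 := (Complex.continuous_ofReal.tendsto _).comp h3
    simp only [Complex.ofReal_zero] at h4
    refine h4.congr fun N => ?_
    rw [Function.comp_apply]
    push_cast
    rfl
  have hr : Tendsto (fun N : ℕ => ((N : ℂ) + 1) * ((2 * N + 1 : ℕ) : ℂ)⁻¹) atTop (𝓝 (2⁻¹)) := by
    have h3 : ∀ N : ℕ, ((N : ℂ) + 1) * ((2 * N + 1 : ℕ) : ℂ)⁻¹ =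
        2⁻¹ + 2⁻¹ * ((2 * N + 1 : ℕ) : ℂ)⁻¹ := by
      intro N
      have : ((2 * N + 1 : ℕ) : ℂ) ≠ 0 := by
        exact_mod_cast Nat.succ_ne_zero (2 * N)
      field_simp
      push_cast
      ring
    simp only [h3]
    simpa using (hinv.const_mul (2⁻¹ : ℂ)).const_add (2⁻¹ : ℂ)
  have hlim := (hr.mul (e1'.add e2')).sub (hinv.mul_const (F 0))
  have e0 : (2⁻¹ : ℂ) * (0 + 0) - 0 * F 0 = 0 := by ring
  rw [e0] at hlim
  refine hlim.congr fun N => ?_
  have hsum : ∑ n ∈ Finset.Icc (-(N : ℤ)) (N : ℤ), F n =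
      ∑ n ∈ Finset.range (N + 1), F (n : ℤ) + ∑ n ∈ Finset.range (N + 1), F (-(n : ℤ)) - F 0 := by
    induction N with
    | zero => simp
    | succ N ih =>
      have e3 : Finset.Icc (-((N + 1 : ℕ) : ℤ)) ((N + 1 : ℕ) : ℤ) =
          insert ((N + 1 : ℕ) : ℤ) (insert (-((N + 1 : ℕ) : ℤ))
            (Finset.Icc (-(N : ℤ)) (N : ℤ))) := by
        ext z
        simp only [Finset.mem_insert, Finset.mem_Icc]
        push_cast
        omega
      rw [e3, Finset.sum_insert, Finset.sum_insert, ih, Finset.sum_range_succ _ (N + 1),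
        Finset.sum_range_succ _ (N + 1)]
      · ring
      · simp only [Finset.mem_Icc]
        push_cast
        omega
      · simp only [Finset.mem_insert, Finset.mem_Icc]
        push_cast
        omega
  rw [hsum]
  have hne : (N : ℂ) + 1 ≠ 0 := by exact_mod_cast Nat.succ_ne_zero N
  field_simp

variable {X : Type*} {mA mY mX : MeasurableSpace X} {μ : Measure X} [IsProbabilityMeasure μ]
variable {G : Type*} [Group G]
variable {Φ : G →* Equiv.Perm X} {ℓ : G → ℝ}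
variable {J : Type*} [DecidableEq J] [Fintype J]

theorem good_pow (hFl : Flow μ Φ) (b : G) :
    Good1 μ (fun n : Fin 1 → ℕ => (Φ (b ^ n 0) : X → X)) := by
  intro H hH hb
  obtain ⟨C, hC⟩ := hb
  have h1 := dz 1 (fun _ => (Φ b : X → X)) (fun _ => hFl b) H hH C hC
  filter_upwards [h1] with x hx
  obtain ⟨L, hL⟩ := hx
  refine ⟨L, hL.congr fun N => ?_⟩
  congr 1
  funext m
  show H ((Φ b : X → X)^[m 0] x) = H (Φ (b ^ m 0) x)
  rw [map_pow, Equiv.Perm.coe_pow]

/-- **The base is characteristic (one-sided averages).** -/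
theorem one_sided (hK : KExt μ mA mY Φ ℓ) (b : J → G) (hb0 : ∀ j, ℓ (b j) ≠ 0)
    (hb : ∀ i j, i ≠ j → ℓ (b i) ≠ ℓ (b j)) {f e : J → X → ℂ}
    (hf : ∀ j, @BM X mX (f j)) (he : ∀ j, @BM X mX (e j)) (heY : ∀ j, Measurable[mY] (e j))
    (hfe : ∀ j, ∀ B : Set X, MeasurableSet[mY] B → ∫ x in B, (f j x - e j x) ∂μ = 0) :
    ∀ᵐ x ∂μ, Tendsto (fun N => bxc 1 N fun n => (∏ j, f j (Φ (b j ^ n 0) x) -
      ∏ j, e j (Φ (b j ^ n 0) x))) atTop (𝓝 0) := by
  classical
  have key : ∀ t : Finset J, t ≠ ∅ → ∀ᵐ x ∂μ, Tendsto (fun N => bxc 1 N fun n =>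
      (∏ j ∈ t, (f j (Φ (b j ^ n 0) x) - e j (Φ (b j ^ n 0) x))) *
        ∏ j ∈ Finset.univ \ t, e j (Φ (b j ^ n 0) x)) atTop (𝓝 0) := by
    intro t ht
    obtain ⟨j₀, hj₀⟩ := Finset.nonempty_of_ne_empty ht
    obtain ⟨s₀, hs₀⟩ : ∃ s₀ : G, 0 < ℓ s₀ := by
      rcases lt_or_gt_of_ne (hb0 j₀) with h | h
      · exact ⟨(b j₀)⁻¹, by rw [hK.filt.inv]; linarith⟩
      · exact ⟨b j₀, h⟩
    have hz := zero_complex (k := 1) (S := t) (q := fun n j => b j ^ n 0) (lam := fun _ => 0)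
      (θ := fun j _ => ℓ (b j)) one_pos hK hs₀
      (fun n v => by
        unfold pos
        rw [hK.filt.pow, Fin.sum_univ_one, nsmul_eq_mul, zero_add])
      (fun v _ _ h => absurd h (hb0 v)) (fun _ => ⟨j₀, hj₀, hb0 j₀⟩)
      (fun v _ w _ hvw => ⟨0, hb v w hvw⟩) (fun v => good_pow hK.fl (b v))
      (F := fun j => if j ∈ t then (fun x => f j x - e j x) else e j) (fun v => by
        by_cases hv : v ∈ t
        · simp only [hv, if_true]
          obtain ⟨m₁, C₁, b₁⟩ := hf v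
          obtain ⟨m₂, C₂, b₂⟩ := he v
          exact ⟨⟨m₁.sub m₂, C₁ + C₂, fun x => (norm_sub_le _ _).trans
            (add_le_add (b₁ x) (b₂ x))⟩, fun _ => hfe v, fun h => absurd hv h⟩
        · simp only [hv, if_false]
          exact ⟨he v, fun h => absurd h hv, fun _ => heY v⟩)
    filter_upwards [hz] with x hx
    refine hx.congr fun N => ?_
    congr 1
    funext n
    rw [← Finset.prod_mul_prod_compl t, ← Finset.compl_eq_univ_sdiff]
    congr 1
    · refine Finset.prod_congr rfl fun j hj => ?_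
      rw [if_pos hj]
    · refine Finset.prod_congr rfl fun j hj => ?_
      rw [if_neg (Finset.mem_compl.1 hj)]
  have hall : ∀ᵐ x ∂μ, ∀ t : Finset J, t ≠ ∅ → Tendsto (fun N => bxc 1 N fun n =>
      (∏ j ∈ t, (f j (Φ (b j ^ n 0) x) - e j (Φ (b j ^ n 0) x))) *
        ∏ j ∈ Finset.univ \ t, e j (Φ (b j ^ n 0) x)) atTop (𝓝 0) := by
    rw [ae_all_iff]
    intro t
    by_cases ht : t = ∅
    · exact Eventually.of_forall fun x h => absurd ht h
    · filter_upwards [key t ht] with x hx _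
      exact hx
  filter_upwards [hall] with x hx
  have hsum := tendsto_finsetSum ((Finset.univ : Finset J).powerset.erase ∅) fun t ht =>
    hx t (Finset.ne_of_mem_erase ht)
  rw [Finset.sum_const_zero] at hsum
  refine hsum.congr fun N => ?_
  rw [← bxc_sum]
  congr 1
  funext n
  have h1 := Finset.prod_add (fun j => f j (Φ (b j ^ n 0) x) - e j (Φ (b j ^ n 0) x))
    (fun j => e j (Φ (b j ^ n 0) x)) (Finset.univ : Finset J)
  have h2 : ∏ j, (f j (Φ (b j ^ n 0) x) - e j (Φ (b j ^ n 0) x) + e j (Φ (b j ^ n 0) x)) =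
      ∏ j, f j (Φ (b j ^ n 0) x) := Finset.prod_congr rfl fun j _ => by ring
  rw [h2, ← Finset.add_sum_erase _ _ (Finset.empty_mem_powerset _)] at h1
  rw [h1, Finset.prod_empty, one_mul, Finset.sdiff_empty]
  ring

/-- **The base is characteristic (two-sided averages).** -/
theorem two_sided_char (hK : KExt μ mA mY Φ ℓ) (b : J → G) (hb0 : ∀ j, ℓ (b j) ≠ 0)
    (hb : ∀ i j, i ≠ j → ℓ (b i) ≠ ℓ (b j)) {f e : J → X → ℂ}
    (hf : ∀ j, @BM X mX (f j)) (he : ∀ j, @BM X mX (e j)) (heY : ∀ j, Measurable[mY] (e j))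
    (hfe : ∀ j, ∀ B : Set X, MeasurableSet[mY] B → ∫ x in B, (f j x - e j x) ∂μ = 0) :
    ∀ᵐ x ∂μ, Tendsto (fun N : ℕ => ((2 * N + 1 : ℕ) : ℂ)⁻¹ *
      ∑ n ∈ Finset.Icc (-(N : ℤ)) (N : ℤ), (∏ j, f j (Φ (b j ^ n) x) -
        ∏ j, e j (Φ (b j ^ n) x))) atTop (𝓝 0) := by
  have h1 := one_sided hK b hb0 hb hf he heY hfe
  have h2 := one_sided hK (fun j => (b j)⁻¹) (fun j => by
    rw [hK.filt.inv]
    exact neg_ne_zero.2 (hb0 j)) (fun i j hij => by
    rw [hK.filt.inv, hK.filt.inv]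
    exact fun h => hb i j hij (neg_injective h)) hf he heY hfe
  filter_upwards [h1, h2] with x hx1 hx2
  refine two_sided_zero (F := fun n : ℤ => (∏ j, f j (Φ (b j ^ n) x) -
        ∏ j, e j (Φ (b j ^ n) x))) ?_ ?_
  · simp only [zpow_natCast]
    exact hx1
  · refine hx2.congr fun N => ?_
    congr 1
    funext n
    simp only [zpow_neg, zpow_natCast, inv_pow]

/-- a bounded `mY`-measurable version of a conditional expectation -/
theorem exists_cond (hY : mY ≤ mX) {f : X → ℂ} (hf : @BM X mX f) :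
    ∃ e : X → ℂ, @BM X mX e ∧ Measurable[mY] e ∧ e =ᵐ[μ] μ[f | mY] ∧
      ∀ B : Set X, MeasurableSet[mY] B → ∫ x in B, (f x - e x) ∂μ = 0 := by
  classical
  obtain ⟨hfm, C, hC⟩ := hf
  have hfi : Integrable f μ := Integrable.of_bound hfm.aestronglyMeasurable C
    (Eventually.of_forall hC)
  set e₀ : X → ℂ := μ[f | mY] with he₀
  have he₀m : Measurable[mY] e₀ :=
    (stronglyMeasurable_condExp (μ := μ) (m := mY) (f := f)).measurable
  have hb : ∀ᵐ x ∂μ, ‖e₀ x‖ ≤ C :=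
    ae_bdd_norm_condExp_of_ae_bdd_norm (μ := μ) (m := mY) (f := f) (Eventually.of_forall hC)
  have hnm : Measurable[mY] fun x => ‖e₀ x‖ := measurable_norm.comp he₀m
  have hms : MeasurableSet[mY] {x | ‖e₀ x‖ ≤ C} := hnm measurableSet_Iic
  have hem : Measurable[mY] ({x | ‖e₀ x‖ ≤ C}.indicator e₀) := he₀m.indicator hms
  have hee : {x | ‖e₀ x‖ ≤ C}.indicator e₀ =ᵐ[μ] e₀ := by
    filter_upwards [hb] with x hx
    exact Set.indicator_of_mem (show x ∈ {x | ‖e₀ x‖ ≤ C} from hx) _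
  have hbd : ∀ x, ‖{x | ‖e₀ x‖ ≤ C}.indicator e₀ x‖ ≤ |C| := by
    intro x
    by_cases hx : x ∈ {x | ‖e₀ x‖ ≤ C}
    · rw [Set.indicator_of_mem hx]
      exact (show ‖e₀ x‖ ≤ C from hx).trans (le_abs_self C)
    · rw [Set.indicator_of_notMem hx, norm_zero]
      exact abs_nonneg C
  have hemX : Measurable ({x | ‖e₀ x‖ ≤ C}.indicator e₀) := hem.mono hY le_rfl
  refine ⟨_, ⟨hemX, |C|, hbd⟩, hem, hee, fun B hB => ?_⟩
  have hei : Integrable ({x | ‖e₀ x‖ ≤ C}.indicator e₀) μ :=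
    Integrable.of_bound hemX.aestronglyMeasurable |C| (Eventually.of_forall hbd)
  rw [integral_sub hfi.integrableOn hei.integrableOn,
    setIntegral_congr_ae (g := e₀) (hY _ hB) (hee.mono fun x hx _ => hx), he₀,
    setIntegral_condExp hY hfi hB, sub_self]

end Pool.Agent.TH784.KE
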