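import Pool.Agent.TH784.KE.BoxK

/-!
# Convergence to zero of box averages
-/

set_option autoImplicit false
set_option linter.unusedSectionVars false

open MeasureTheory Filter Topology

noncomputable section

namespace Pool.Agent.TH784.KE

open Pool.Agent.W761.Box (bx bx_add bx_mul bx_sum bx_mono bx_abs bx_const_le bx_nonneg good1
  Good1 int_lim_le')
open Pool.Agent.TH784.AA (bxs mem_bxs vol vol_pos vol_nonneg card_bxs sum_fiber bxs_mono)

variable {X : Type*} {mA mY mX : MeasurableSpace X} {μ : Measure X} [IsProbabilityMeasure μ]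
variable {G : Type*} [Group G]
variable {Φ : G →* Equiv.Perm X} {ℓ : G → ℝ}
variable {J : Type*} [DecidableEq J] [Fintype J] {k : ℕ}

open Classical in
/-- the error term -/
def errb (Φ : G →* Equiv.Perm X) (ℓ : G → ℝ) (R : ℝ) (H : J → X → ℝ) (S : Finset J)
    (p : J → G) (x : X) : ℝ :=
  ∑ v ∈ S, |H v (Φ (p v) x)| +
    ∑ v ∈ S, ∑ w ∈ S.erase v, (if |ℓ (p v) - ℓ (p w)| < R then (1 : ℝ) else 0)

theorem errb_mono (R : ℝ) (H : J → X → ℝ) {V S : Finset J} (h : V ⊆ S)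
    (p : J → G) (x : X) : errb Φ ℓ R H V p x ≤ errb Φ ℓ R H S p x := by
  unfold errb
  refine add_le_add (Finset.sum_le_sum_of_subset_of_nonneg h fun _ _ _ => abs_nonneg _) ?_
  refine (Finset.sum_le_sum fun v hv => Finset.sum_le_sum_of_subset_of_nonneg
    (Finset.erase_subset_erase v h) fun _ _ _ => by split_ifs <;> norm_num).trans ?_
  exact Finset.sum_le_sum_of_subset_of_nonneg h fun _ _ _ =>
    Finset.sum_nonneg fun _ _ => by split_ifs <;> norm_num

theorem bound_ae (hk : 0 < k) (hFl : Flow μ Φ) (hA : Filt mX mA Φ ℓ) (hY : Base mY mA Φ)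
    {S : Finset J} {q : (Fin k → ℕ) → J → G} {lam : J → ℝ} {θ : J → Fin k → ℝ}
    (hq : ∀ n v, ℓ (q n v) = pos lam θ n v)
    (h1 : ∀ v ∈ S, ∀ l, θ v l = 0 → ∀ n t, q (Function.update n l t) v = q n v)
    (h2 : ∀ l, ∃ v ∈ S, θ v l ≠ 0)
    {F H : J → X → ℝ} {r s : G} {R : ℝ} (hsr : ℓ s ≤ ℓ r) (hR : ℓ r - ℓ s ≤ R) (hR0 : 0 < R)
    (hF : ∀ v ∈ S, Measurable[cm mA Φ r] (F v)) (hF1 : ∀ v x, |F v x| ≤ 1)
    (hFY : ∀ v ∉ S, Measurable[mY] (F v)) (hH : ∀ v ∈ S, CE μ (cm mA Φ s) (F v) (H v))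
    {η : ℝ} (hη : 0 < η) :
    ∀ᵐ x ∂μ, ∀ᶠ N : Fin k → ℕ in atTop,
      |bx k N fun n => ∏ v, F v (Φ (q n v) x)| ≤
        η + bx k N fun n => errb Φ ℓ R H S (q n) x := by
  classical
  have : Nonempty (Fin k) := ⟨⟨0, hk⟩⟩
  obtain ⟨L, hL, hLβ⟩ : ∃ L : ℕ, 0 < L ∧ ∀ v ∈ S, ∀ l, θ v l ≠ 0 → R ≤ L * |θ v l| := by
    have h3 : ∀ v : J, ∀ l : Fin k, ∀ᶠ L : ℕ in atTop, θ v l ≠ 0 → R ≤ L * |θ v l| := by
      intro v l
      by_cases h0 : θ v l = 0
      · exact Eventually.of_forall fun L h => absurd h0 h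
      · have h4 : Tendsto (fun L : ℕ => (L : ℝ) * |θ v l|) atTop atTop :=
          tendsto_natCast_atTop_atTop.atTop_mul_const (abs_pos.2 h0)
        exact (h4.eventually_ge_atTop R).mono fun L hL _ => hL
    have h5 : ∀ᶠ L : ℕ in atTop, ∀ v : J, ∀ l : Fin k, θ v l ≠ 0 → R ≤ L * |θ v l| :=
      eventually_all.2 fun v => eventually_all.2 fun l => h3 v l
    obtain ⟨L, hL1, hL2⟩ := (h5.and (eventually_gt_atTop 0)).exists
    exact ⟨L, hL2, fun v _ l => hL1 v l⟩
  let V : Fin k → Finset J := fun l => S.filter fun v => θ v l ≠ 0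
  have hVS : ∀ l, V l ⊆ S := fun l => Finset.filter_subset _ _
  let W : (Fin k → ℕ) → X → ℝ := fun n x => ∏ v ∈ Sᶜ, F v (Φ (q n v) x)
  have hW : ∀ n, Measurable[mY] (W n) ∧ ∀ x, |W n x| ≤ 1 := by
    intro n
    refine ⟨Finset.measurable_fun_prod _ fun v hv => ?_, fun x =>
      prod_abs_le (fun w _ => hF1 w) _ x⟩
    exact (hFY v (Finset.mem_compl.1 hv)).comp (hY.inv _)
  have hlines : ∀ᵐ x ∂μ, ∀ l : Fin k, ∀ᶠ M : ℕ in atTop, ∀ n ∈ bxs (fun _ : Fin k => M),
      |∑ t ∈ Finset.range M, ∑ v ∈ V l, DD (V l) Φ ℓ R F H (W (Function.update n l t))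
        (q (Function.update n l t)) v x| ≤ η * M := by
    rw [ae_all_iff]
    intro l
    exact lines_ae hFl hA hY hq l (fun v hv => (Finset.mem_filter.1 hv).2) hsr hR hR0.le
      (fun w hw => ⟨hF w (hVS l hw), hF1 w⟩) (fun v hv => hH v (hVS l hv)) hW hL
      (fun v hv => hLβ v (hVS l hv) l (Finset.mem_filter.1 hv).2) hη
  filter_upwards [hlines] with x hx
  obtain ⟨M₀, hM₀⟩ := eventually_atTop.1 (eventually_all.2 hx)
  refine eventually_atTop.2 ⟨fun _ => max M₀ 1, fun N hN => ?_⟩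
  have hN1 : ∀ j, 1 ≤ N j := fun j => (le_max_right _ _).trans (hN j)
  obtain ⟨l, hl⟩ := Finite.exists_max N
  have hNl : M₀ ≤ N l := (le_max_left _ _).trans (hN l)
  have hNlpos : (0 : ℝ) < N l := by
    have := hN1 l
    positivity
  have hVne : (V l).Nonempty := by
    obtain ⟨v, hv, h⟩ := h2 l
    exact ⟨v, Finset.mem_filter.2 ⟨hv, h⟩⟩
  -- factorisation
  have hfac : ∀ n : Fin k → ℕ, ∏ v, F v (Φ (q n v) x) =
      (∏ v ∈ S.filter (fun v => ¬ θ v l ≠ 0), F v (Φ (q n v) x)) *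
        ((∏ v ∈ V l, F v (Φ (q n v) x)) * W n x) := by
    intro n
    show _ = _ * (_ * ∏ v ∈ Sᶜ, F v (Φ (q n v) x))
    rw [← Finset.prod_mul_prod_compl S, ← Finset.prod_filter_mul_prod_filter_not S
      (fun v => θ v l ≠ 0)]
    ring
  have hinv : ∀ (n : Fin k → ℕ) (t : ℕ),
      ∏ v ∈ S.filter (fun v => ¬ θ v l ≠ 0), F v (Φ (q (Function.update n l t) v) x) =
      ∏ v ∈ S.filter (fun v => ¬ θ v l ≠ 0), F v (Φ (q n v) x) := by
    intro n t
    refine Finset.prod_congr rfl fun v hv => ?_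
    rw [Finset.mem_filter, not_not] at hv
    rw [h1 v hv.1 l hv.2 n t]
  have hline : ∀ n ∈ bxs N, |(N l : ℝ)⁻¹ * ∑ t ∈ Finset.range (N l),
      ∏ v, F v (Φ (q (Function.update n l t) v) x)| ≤
      η + (N l : ℝ)⁻¹ * ∑ t ∈ Finset.range (N l),
        errb Φ ℓ R H S (q (Function.update n l t)) x := by
    intro n hn
    have hn' : n ∈ bxs (fun _ : Fin k => N l) := bxs_mono hl hn
    have e1 : ∑ t ∈ Finset.range (N l), ∏ v, F v (Φ (q (Function.update n l t) v) x) =
        (∏ v ∈ S.filter (fun v => ¬ θ v l ≠ 0), F v (Φ (q n v) x)) *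
        ∑ t ∈ Finset.range (N l),
          ((∏ v ∈ V l, F v (Φ (q (Function.update n l t) v) x)) *
            W (Function.update n l t) x) := by
      rw [Finset.mul_sum]
      refine Finset.sum_congr rfl fun t _ => ?_
      rw [hfac, hinv]
    rw [e1, abs_mul, abs_mul, abs_of_pos (inv_pos.2 hNlpos)]
    have hK := prod_abs_le (Φ := Φ) (V := S.filter (fun v => ¬ θ v l ≠ 0)) (F := F)
      (fun w _ => hF1 w) (q n) x
    set K := ∏ v ∈ S.filter (fun v => ¬ θ v l ≠ 0), F v (Φ (q n v) x) with hKdef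
    have e2 : |∑ t ∈ Finset.range (N l),
          ((∏ v ∈ V l, F v (Φ (q (Function.update n l t) v) x)) *
            W (Function.update n l t) x)| ≤ η * N l + ∑ t ∈ Finset.range (N l),
        errb Φ ℓ R H S (q (Function.update n l t)) x := by
      have e3 : ∑ t ∈ Finset.range (N l),
          ((∏ v ∈ V l, F v (Φ (q (Function.update n l t) v) x)) *
            W (Function.update n l t) x) =
          ∑ t ∈ Finset.range (N l), ∑ v ∈ V l, DD (V l) Φ ℓ R F H (W (Function.update n l t))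
            (q (Function.update n l t)) v x +
          ∑ t ∈ Finset.range (N l), ((∏ v ∈ V l, F v (Φ (q (Function.update n l t) v) x)) *
            W (Function.update n l t) x - ∑ v ∈ V l, DD (V l) Φ ℓ R F H
              (W (Function.update n l t)) (q (Function.update n l t)) v x) := by
        rw [← Finset.sum_add_distrib]
        refine Finset.sum_congr rfl fun t _ => ?_
        ring
      rw [e3]
      refine (abs_add_le _ _).trans (add_le_add (hM₀ _ hNl l n hn') ?_)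
      refine (Finset.abs_sum_le_sum_abs _ _).trans (Finset.sum_le_sum fun t _ => ?_)
      refine (pointwise hVne hR0 (fun w _ => hF1 w) (hW _).2 _ x).trans ?_
      exact errb_mono (Φ := Φ) (ℓ := ℓ) R H (hVS l) _ x
    calc (N l : ℝ)⁻¹ * (|K| * |∑ t ∈ Finset.range (N l),
          ((∏ v ∈ V l, F v (Φ (q (Function.update n l t) v) x)) *
            W (Function.update n l t) x)|) ≤
          (N l : ℝ)⁻¹ * (1 * (η * N l + ∑ t ∈ Finset.range (N l),
            errb Φ ℓ R H S (q (Function.update n l t)) x)) := by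
          refine mul_le_mul_of_nonneg_left ?_ (inv_pos.2 hNlpos).le
          exact mul_le_mul hK e2 (abs_nonneg _) zero_le_one
      _ = _ := by
          field_simp
  rw [bx_slice hN1 l]
  refine bx_abs.trans ((bx_mono_of hline).trans ?_)
  rw [bx_add, ← bx_slice hN1 l (fun n => errb Φ ℓ R H S (q n) x)]
  exact add_le_add (bx_const_le hη.le) le_rfl

open Classical in
theorem tendsto_close {R : ℝ} (hR : 0 < R) (lam : J → ℝ) (θ : J → Fin k → ℝ) {v w : J}
    {l : Fin k} (hl : θ v l ≠ θ w l) :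
    Tendsto (fun N => bx k N
      (fun n => if |pos lam θ n v - pos lam θ n w| < R then (1 : ℝ) else 0))
      atTop (𝓝 0) := by
  have h1 : Tendsto (fun N : Fin k → ℕ => (2 * R / |θ v l - θ w l| + 1) / (N l : ℝ))
      atTop (𝓝 0) := by
    refine Tendsto.div_atTop tendsto_const_nhds ?_
    refine tendsto_natCast_atTop_atTop.comp (tendsto_atTop_atTop.2 fun b => ⟨fun _ => b,
      fun N hN => hN l⟩)
  refine squeeze_zero' (Eventually.of_forall fun N => bx_nonneg fun n => by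
    split_ifs <;> norm_num) ?_ h1
  exact eventually_atTop.2 ⟨fun _ => 1, fun N hN => count_close hR lam θ hl hN⟩

/-- **Convergence to zero.** -/
theorem box_zero (hk : 0 < k) (hFl : Flow μ Φ) (hA : Filt mX mA Φ ℓ) (hY : Base mY mA Φ)
    {S : Finset J} {q : (Fin k → ℕ) → J → G} {lam : J → ℝ} {θ : J → Fin k → ℝ}
    (hq : ∀ n v, ℓ (q n v) = pos lam θ n v)
    (h1 : ∀ v ∈ S, ∀ l, θ v l = 0 → ∀ n t, q (Function.update n l t) v = q n v)
    (h2 : ∀ l, ∃ v ∈ S, θ v l ≠ 0)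
    (h3 : ∀ v ∈ S, ∀ w ∈ S, v ≠ w → ∃ l, θ v l ≠ θ w l)
    (hgood : ∀ v ∈ S, Good1 μ fun n => (Φ (q n v) : X → X))
    {F : J → X → ℝ} {r : G}
    (hF : ∀ v ∈ S, Measurable[cm mA Φ r] (F v)) (hF1 : ∀ v x, |F v x| ≤ 1)
    (hFY : ∀ v ∉ S, Measurable[mY] (F v))
    (hsm : ∀ ε : ℝ, 0 < ε → ∃ s : G, ℓ s ≤ ℓ r ∧ ∃ H : J → X → ℝ,
      (∀ v ∈ S, CE μ (cm mA Φ s) (F v) (H v)) ∧ ∀ v ∈ S, ∫ x, |H v x| ∂μ ≤ ε) :
    ∀ᵐ x ∂μ, Tendsto (fun N => bx k N fun n => ∏ v, F v (Φ (q n v) x)) atTop (𝓝 0) := by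
  classical
  have hbad : ∀ δ : ℝ, 0 < δ → ∀ᵐ x ∂μ, ∀ᶠ N : Fin k → ℕ in atTop,
      |bx k N fun n => ∏ v, F v (Φ (q n v) x)| ≤ δ := by
    intro δ hδ
    rw [ae_iff, ← nonpos_iff_eq_zero]
    apply ENNReal.le_of_forall_pos_le_add
    intro ε hε _
    rw [zero_add]
    have hε' : (0 : ℝ) < ε := by exact_mod_cast hε
    obtain ⟨s, hsr, H, hH, hHs⟩ := hsm (ε * (δ / 4) / (S.card + 1)) (by positivity)
    set R : ℝ := max (ℓ r - ℓ s) 1 with hRdef
    have hR : ℓ r - ℓ s ≤ R := le_max_left _ _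
    have hR0 : 0 < R := lt_of_lt_of_le one_pos (le_max_right _ _)
    have hHm : ∀ v ∈ S, Measurable (H v) := fun v hv => (hH v hv).1.mono (cm_le hFl hA s) le_rfl
    let E : J → X → ℝ := fun v x => limUnder atTop
      (fun N => bx k N fun n => |H v (Φ (q n v) x)|)
    have hE : ∀ v ∈ S, ∀ᵐ x ∂μ, Tendsto (fun N => bx k N fun n => |H v (Φ (q n v) x)|)
        atTop (𝓝 (E v x)) := by
      intro v hv
      have h4 := hgood v hv (fun x => |H v x|)
        (hHm v hv).abs ⟨1, fun x => by rw [abs_abs]; exact (hH v hv).2.1 x⟩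
      filter_upwards [h4] with x hx
      exact tendsto_nhds_limUnder hx
    have hEint : ∀ v ∈ S, 0 ≤ᵐ[μ] E v ∧ Integrable (E v) μ ∧
        ∫ x, E v x ∂μ ≤ ∫ x, |H v x| ∂μ := by
      intro v hv
      exact int_lim_le' (fun n => hFl (q n v)) (hHm v hv).abs (zero_le_one (α := ℝ))
        (fun x => by rw [abs_abs]; exact (hH v hv).2.1 x) (fun x => abs_nonneg _) (hE v hv)
    let T : X → ℝ := fun x => ∑ v ∈ S, E v x
    have hT0 : 0 ≤ᵐ[μ] T := by
      have : ∀ᵐ x ∂μ, ∀ v ∈ S, 0 ≤ E v x :=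
        (ae_ball_iff S.countable_toSet).2 fun v hv => (hEint v hv).1
      filter_upwards [this] with x hx
      exact Finset.sum_nonneg hx
    have hTi : Integrable T μ := integrable_finsetSum _ fun v hv => (hEint v hv).2.1
    have hTint : ∫ x, T x ∂μ ≤ ε * (δ / 4) := by
      have : ∫ x, T x ∂μ = ∑ v ∈ S, ∫ x, E v x ∂μ :=
        integral_finsetSum _ fun v hv => (hEint v hv).2.1
      rw [this]
      refine (Finset.sum_le_sum fun v hv => ((hEint v hv).2.2.trans (hHs v hv))).trans ?_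
      rw [Finset.sum_const, nsmul_eq_mul, mul_div_assoc', div_le_iff₀ (by positivity)]
      have : 0 ≤ ε * (δ / 4) := by positivity
      nlinarith
    have hmark := mul_meas_ge_le_integral_of_nonneg hT0 hTi (δ / 4)
    have hmark' : μ.real {x | δ / 4 ≤ T x} ≤ ε := by
      have h5 : δ / 4 * μ.real {x | δ / 4 ≤ T x} ≤ δ / 4 * ε := by
        refine (hmark.trans hTint).trans ?_
        rw [mul_comm]
      exact le_of_mul_le_mul_left h5 (by positivity)
    have hmain := bound_ae (η := δ / 4) hk hFl hA hY hq h1 h2 hsr hR hR0 hF hF1 hFY hH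
      (by positivity)
    have hEall : ∀ᵐ x ∂μ, ∀ v ∈ S, Tendsto (fun N => bx k N fun n =>
        |H v (Φ (q n v) x)|) atTop (𝓝 (E v x)) :=
      (ae_ball_iff S.countable_toSet).2 fun v hv => hE v hv
    have hclose : Tendsto (fun N => ∑ v ∈ S, ∑ w ∈ S.erase v, bx k N
        (fun n => if |ℓ (q n v) - ℓ (q n w)| < R then (1 : ℝ) else 0))
        atTop (𝓝 0) := by
      simp only [hq]
      have h5 : Tendsto (fun N => ∑ v ∈ S, ∑ w ∈ S.erase v, bx k N
          (fun n => if |pos lam θ n v - pos lam θ n w| < R then (1 : ℝ) else 0))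
          atTop (𝓝 (∑ v ∈ S, ∑ _w ∈ S.erase v, (0 : ℝ))) := by
        refine tendsto_finsetSum _ fun v hv => tendsto_finsetSum _ fun w hw => ?_
        obtain ⟨l, hl⟩ := h3 v hv w (Finset.mem_of_mem_erase hw) (Finset.ne_of_mem_erase hw).symm
        exact tendsto_close hR0 lam θ hl
      rw [Finset.sum_eq_zero fun v _ => Finset.sum_const_zero] at h5
      exact h5
    have hsub : ∀ᵐ x ∂μ, x ∈ {x | ¬ ∀ᶠ N : Fin k → ℕ in atTop,
        |bx k N fun n => ∏ v, F v (Φ (q n v) x)| ≤ δ} → x ∈ {x | δ / 4 ≤ T x} := by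
      filter_upwards [hmain, hEall] with x hx1 hx2 hx3
      show δ / 4 ≤ T x
      by_contra hcon
      rw [not_le] at hcon
      apply hx3
      have h6 : Tendsto (fun N => ∑ v ∈ S, bx k N fun n => |H v (Φ (q n v) x)|)
          atTop (𝓝 (T x)) := tendsto_finsetSum _ fun v hv => hx2 v hv
      have h7 := (tendsto_order.mp h6).2 _ hcon
      have h8 := (tendsto_order.mp hclose).2 (δ / 4) (by positivity)
      filter_upwards [hx1, h7, h8] with N hN1 hN2 hN3
      refine hN1.trans ?_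
      have e : (bx k N fun n => errb Φ ℓ R H S (q n) x) =
          ∑ v ∈ S, (bx k N fun n => |H v (Φ (q n v) x)|) +
          ∑ v ∈ S, ∑ w ∈ S.erase v, bx k N
            (fun n => if |ℓ (q n v) - ℓ (q n w)| < R then (1 : ℝ) else 0) := by
        unfold errb
        rw [bx_add, bx_sum, bx_sum]
        congr 1
        refine Finset.sum_congr rfl fun v _ => ?_
        rw [bx_sum]
      rw [e]
      linarith
    have h10 : μ {x | ¬ ∀ᶠ N : Fin k → ℕ in atTop,
        |bx k N fun n => ∏ v, F v (Φ (q n v) x)| ≤ δ} ≤ μ {x | δ / 4 ≤ T x} :=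
      measure_mono_ae hsub
    refine h10.trans ?_
    have h9 : μ {x | δ / 4 ≤ T x} = ENNReal.ofReal (μ.real {x | δ / 4 ≤ T x}) := by
      rw [measureReal_def, ENNReal.ofReal_toReal (measure_ne_top _ _)]
    rw [h9]
    calc ENNReal.ofReal (μ.real {x | δ / 4 ≤ T x}) ≤ ENNReal.ofReal (ε : ℝ) :=
          ENNReal.ofReal_le_ofReal hmark'
      _ = ε := ENNReal.ofReal_coe_nnreal
  have hall := ae_all_iff.mpr fun i : ℕ => hbad (1 / ((i : ℝ) + 1)) (by positivity)
  filter_upwards [hall] with x hx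
  rw [Metric.tendsto_nhds]
  intro ε hε
  obtain ⟨i, hi⟩ := exists_nat_one_div_lt hε
  filter_upwards [hx i] with N hN
  rw [Real.dist_eq, sub_zero]
  exact hN.trans_lt hi

end Pool.Agent.TH784.KE
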